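import Pool.Agent.Lib.MP_0d7657_an.Zc

set_option autoImplicit false

namespace Pool.Agent.NRZ

open Polynomial Filter Topology

lemma Zc_derivative {p : ℝ[X]} (h : derivative p ≠ 0) : Zc (derivative p) ≤ Zc p := by
  have hp : p ≠ 0 := by rintro rfl; simp at h
  have h1 := Zc_add_card_roots h
  have h2 := Zc_add_card_roots hp
  have h3 := card_roots_le_derivative p
  have h4 : p.natDegree ≠ 0 := by
    intro h0
    exact h (derivative_of_natDegree_zero h0)
  have h5 := natDegree_derivative_lt h4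
  omega

/-- The generalized Rolle theorem with rational exponent. -/
lemma Zc_rolle_nat (a b : ℕ) (hb : 1 ≤ b) {p : ℝ[X]}
    (h : C (a : ℝ) * p + C (b : ℝ) * (X * derivative p) ≠ 0) :
    Zc (C (a : ℝ) * p + C (b : ℝ) * (X * derivative p)) ≤ Zc p := by
  have hp : p ≠ 0 := by rintro rfl; simp at h
  have hb0 : (b : ℝ) ≠ 0 := by positivity
  rcases Nat.eq_zero_or_pos a with ha | ha
  · subst ha
    simp only [Nat.cast_zero, map_zero, zero_mul, zero_add] at h ⊢
    have hd : derivative p ≠ 0 := by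
      intro h0; rw [h0] at h; simp at h
    rw [Zc_C_mul hb0, ← pow_one X, Zc_X_pow_mul]
    exact Zc_derivative hd
  · set g := C (a : ℝ) * p + C (b : ℝ) * (X * derivative p) with hg
    have hq : derivative (X ^ a * p ^ b) = X ^ (a - 1) * p ^ (b - 1) * g := by
      obtain ⟨a', rfl⟩ : ∃ a', a = a' + 1 := ⟨a - 1, by omega⟩
      obtain ⟨b', rfl⟩ : ∃ b', b = b' + 1 := ⟨b - 1, by omega⟩
      rw [derivative_mul, derivative_X_pow, derivative_pow, hg]
      simp only [Nat.add_sub_cancel]
      ring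
    have hne : derivative (X ^ a * p ^ b) ≠ 0 := by
      rw [hq]
      exact mul_ne_zero (mul_ne_zero (pow_ne_zero _ X_ne_zero) (pow_ne_zero _ hp)) h
    have h1 := Zc_derivative hne
    rw [hq, mul_assoc, Zc_X_pow_mul, Zc_X_pow_mul, Zc_mul (pow_ne_zero _ hp) h] at h1
    have h2 : ∀ k : ℕ, Zc (p ^ k) = k * Zc p := by
      intro k
      induction k with
      | zero =>
        have : Zc (1 : ℝ[X]) = 0 := Zc_of_natDegree_le_one (by simp)
        simpa using this
      | succ k ih => rw [pow_succ, Zc_mul (pow_ne_zero _ hp) hp, ih]; ring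
    rw [h2, h2] at h1
    obtain ⟨b', rfl⟩ : ∃ b', b = b' + 1 := ⟨b - 1, by omega⟩
    simp only [Nat.add_sub_cancel] at h1
    nlinarith

/-- Coefficientwise convergence. -/
def TC (f : ℕ → ℝ[X]) (p : ℝ[X]) : Prop :=
  ∀ k, Tendsto (fun j => (f j).coeff k) atTop (𝓝 (p.coeff k))

lemma coeff_ofFn {n : ℕ} (v : Fin n → ℝ) (k : ℕ) :
    (ofFn n v).coeff k = if h : k < n then v ⟨k, h⟩ else 0 := by
  split_ifs with h
  · exact ofFn_coeff_eq_val_of_lt v h
  · exact ofFn_coeff_eq_zero_of_ge v (not_lt.1 h)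

lemma continuous_coeff_ofFn {n : ℕ} (k : ℕ) :
    Continuous (fun v : Fin n → ℝ => (ofFn n v).coeff k) := by
  by_cases h : k < n
  · simp only [coeff_ofFn, h, dif_pos]; fun_prop
  · simp only [coeff_ofFn, h, dif_neg, not_false_eq_true]; fun_prop

lemma coeff_lin_mul (a b : ℝ) (g : ℝ[X]) (k : ℕ) :
    ((C a * X + C b) * g).coeff k = a * (if k = 0 then 0 else g.coeff (k - 1)) + b * g.coeff k := by
  rw [add_mul, coeff_add, mul_assoc, coeff_C_mul, coeff_C_mul]
  rcases k with _ | k
  · simp
  · simp [coeff_X_mul]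

lemma exists_lin_factor {n : ℕ} {p : ℝ[X]} (hp : p ≠ 0) (hn : p.natDegree ≤ n + 1)
    (hz : Zc p ≤ n) : ∃ (a b : ℝ) (g : ℝ[X]), a ^ 2 + b ^ 2 = 1 ∧ g.natDegree ≤ n ∧
      p = (C a * X + C b) * g := by
  rcases Nat.lt_or_ge p.natDegree (n + 1) with h | h
  · exact ⟨0, 1, p, by norm_num, by omega, by simp⟩
  · have h1 := Zc_add_card_roots hp
    have h2 : 0 < Multiset.card p.roots := by omega
    obtain ⟨r, hr⟩ := Multiset.card_pos_iff_exists_mem.1 h2
    obtain ⟨g, hg⟩ := dvd_iff_isRoot.2 (isRoot_of_mem_roots hr)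
    have hg0 : g ≠ 0 := by rintro rfl; simp at hg; exact hp hg
    set s := Real.sqrt (1 + r ^ 2) with hs
    have hs0 : 0 < s := Real.sqrt_pos.2 (by positivity)
    have hs2 : s ^ 2 = 1 + r ^ 2 := Real.sq_sqrt (by positivity)
    refine ⟨1 / s, -r / s, C s * g, ?_, ?_, ?_⟩
    · rw [div_pow, div_pow, hs2]; field_simp
    · rw [natDegree_C_mul hs0.ne']
      have := natDegree_mul (X_sub_C_ne_zero r) hg0
      rw [← hg, natDegree_X_sub_C] at this
      omega
    · have e : C (1 / s) * X + C (-r / s) = C (1 / s) * (X - C r) := by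
        rw [mul_sub, ← C_mul, sub_eq_add_neg, ← C_neg]
        congr 2; ring
      rw [e, hg]
      have : C (1 / s) * C s = 1 := by rw [← C_mul]; simp [hs0.ne']
      calc (X - C r) * g = (C (1 / s) * C s) * ((X - C r) * g) := by rw [this, one_mul]
        _ = _ := by ring

/-- The number of non-real zeros is lower semicontinuous in bounded degree. -/
theorem Zc_closed (n : ℕ) : ∀ (m : ℕ) (f : ℕ → ℝ[X]), (∀ j, (f j).natDegree ≤ n) →
    (∀ j, Zc (f j) ≤ m) → ∀ p : ℝ[X], p ≠ 0 → TC f p → Zc p ≤ m := by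
  induction n with
  | zero =>
    intro m f hf _ p _ hT
    have h1 : p.natDegree ≤ 0 := by
      rw [natDegree_le_iff_coeff_eq_zero]
      intro k hk
      have h2 : (fun j => (f j).coeff k) = fun _ => 0 := by
        funext j
        exact coeff_eq_zero_of_natDegree_lt (lt_of_le_of_lt (hf j) hk)
      have h3 := hT k
      rw [h2] at h3
      exact tendsto_nhds_unique h3 tendsto_const_nhds
    rw [Zc_of_natDegree_le_one (by omega)]
    exact Nat.zero_le _
  | succ n ih =>
    intro m f hf hm p hp hT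
    have hdeg : p.natDegree ≤ n + 1 := by
      rw [natDegree_le_iff_coeff_eq_zero]
      intro k hk
      have h2 : (fun j => (f j).coeff k) = fun _ => 0 := by
        funext j
        exact coeff_eq_zero_of_natDegree_lt (lt_of_le_of_lt (hf j) hk)
      have h3 := hT k
      rw [h2] at h3
      exact tendsto_nhds_unique h3 tendsto_const_nhds
    rcases Nat.lt_or_ge n m with hmn | hmn
    · exact (Zc_le_natDegree p).trans (by omega)
    -- eventually nonzero
    obtain ⟨k₀, hk₀⟩ : ∃ k, p.coeff k ≠ 0 := by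
      by_contra hcon
      push Not at hcon
      exact hp (Polynomial.ext (by simpa using hcon))
    have hev : ∀ᶠ j in atTop, f j ≠ 0 := by
      filter_upwards [(hT k₀).eventually_ne hk₀] with j hj h0
      rw [h0] at hj; simp at hj
    obtain ⟨N, hN⟩ := eventually_atTop.1 hev
    have hch : ∀ j : ℕ, ∃ (a b : ℝ) (g : ℝ[X]), a ^ 2 + b ^ 2 = 1 ∧ g.natDegree ≤ n ∧
        f (j + N) = (C a * X + C b) * g := fun j =>
      exists_lin_factor (hN _ (by omega)) (hf _) ((hm _).trans hmn)
    choose a b g hab hg hfac using hch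
    have hg0 : ∀ j, g j ≠ 0 := by
      intro j h0
      have := hN (j + N) (by omega)
      rw [hfac, h0, mul_zero] at this
      exact this rfl
    have hlin : ∀ j, (C (a j) * X + C (b j) : ℝ[X]) ≠ 0 := by
      intro j h0
      have := hN (j + N) (by omega)
      rw [hfac, h0, zero_mul] at this
      exact this rfl
    have hZg : ∀ j, Zc (g j) ≤ m := by
      intro j
      have h1 := hm (j + N)
      rw [hfac, Zc_mul (hlin j) (hg0 j)] at h1
      omega
    -- normalisation
    set v : ℕ → (Fin (n + 1) → ℝ) := fun j => toFn (n + 1) (g j) with hv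
    have hov : ∀ j, ofFn (n + 1) (v j) = g j := fun j =>
      ofFn_comp_toFn_eq_id_of_natDegree_lt (Nat.lt_succ_of_le (hg j))
    have hv0 : ∀ j, v j ≠ 0 := by
      intro j h0
      apply hg0 j
      rw [← hov, h0, map_zero]
    set w : ℕ → (Fin (n + 1) → ℝ) := fun j => ‖v j‖⁻¹ • v j with hw
    have hwn : ∀ j, ‖w j‖ = 1 := by
      intro j
      rw [hw]; simp only [norm_smul, norm_inv, norm_norm]
      exact inv_mul_cancel₀ (norm_ne_zero_iff.2 (hv0 j))
    have hK : IsCompact ((Metric.closedBall (0 : ℝ × ℝ) 1) ×ˢ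
        (Metric.sphere (0 : Fin (n + 1) → ℝ) 1)) :=
      (isCompact_closedBall _ _).prod (isCompact_sphere _ _)
    have hmemK : ∀ j, ((a j, b j), w j) ∈ ((Metric.closedBall (0 : ℝ × ℝ) 1) ×ˢ
        (Metric.sphere (0 : Fin (n + 1) → ℝ) 1)) := by
      intro j
      refine ⟨?_, ?_⟩
      · rw [mem_closedBall_zero_iff, Prod.norm_def]
        have h1 := hab j
        refine max_le ?_ ?_
        · rw [Real.norm_eq_abs]
          exact abs_le_one_iff_mul_self_le_one.2 (by nlinarith [sq_nonneg (b j)])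
        · rw [Real.norm_eq_abs]
          exact abs_le_one_iff_mul_self_le_one.2 (by nlinarith [sq_nonneg (a j)])
      · rw [mem_sphere_zero_iff_norm]; exact hwn j
    obtain ⟨⟨⟨α, β⟩, ω⟩, hmem, φ, hφ, hlim⟩ := hK.tendsto_subseq hmemK
    have hα : Tendsto (fun j => a (φ j)) atTop (𝓝 α) :=
      (continuous_fst.comp continuous_fst).continuousAt.tendsto.comp hlim
    have hβ : Tendsto (fun j => b (φ j)) atTop (𝓝 β) :=
      (continuous_snd.comp continuous_fst).continuousAt.tendsto.comp hlim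
    have hω : Tendsto (fun j => w (φ j)) atTop (𝓝 ω) :=
      continuous_snd.continuousAt.tendsto.comp hlim
    have hαβ : α ^ 2 + β ^ 2 = 1 := by
      have h1 : Tendsto (fun j => a (φ j) ^ 2 + b (φ j) ^ 2) atTop (𝓝 (α ^ 2 + β ^ 2)) :=
        (hα.pow 2).add (hβ.pow 2)
      simp_rw [hab] at h1
      exact (tendsto_nhds_unique h1 tendsto_const_nhds)
    set q := ofFn (n + 1) ω with hq
    have hωn : ‖ω‖ = 1 := mem_sphere_zero_iff_norm.1 hmem.2
    have hq0 : q ≠ 0 := by
      intro h0
      have h1 : ω = 0 := by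
        apply injective_ofFn (R := ℝ) (n + 1)
        rw [map_zero]; exact h0
      rw [h1] at hωn; simp at hωn
    have hlin0 : (C α * X + C β : ℝ[X]) ≠ 0 := by
      intro h0
      have h1 := congrArg (fun r : ℝ[X] => r.coeff 1) h0
      have h2 := congrArg (fun r : ℝ[X] => r.coeff 0) h0
      simp at h1 h2
      rw [h1, h2] at hαβ
      norm_num at hαβ
    have hqc : ∀ k, Tendsto (fun j => (ofFn (n + 1) (w (φ j))).coeff k) atTop
        (𝓝 (q.coeff k)) := fun k =>
      (continuous_coeff_ofFn k).continuousAt.tendsto.comp hω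
    have hprod : ∀ k, Tendsto (fun j => ((C (a (φ j)) * X + C (b (φ j))) *
        ofFn (n + 1) (w (φ j))).coeff k) atTop (𝓝 (((C α * X + C β) * q).coeff k)) := by
      intro k
      simp only [coeff_lin_mul]
      refine (hα.mul ?_).add (hβ.mul (hqc k))
      by_cases hk : k = 0
      · simp [hk]
      · simp only [hk, if_false]; exact hqc _
    have hscale : ∀ j k, ‖v j‖ * ((C (a j) * X + C (b j)) * ofFn (n + 1) (w j)).coeff k =
        (f (j + N)).coeff k := by
      intro j k
      have h1 : ofFn (n + 1) (w j) = C (‖v j‖⁻¹) * g j := by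
        rw [hw]; simp only [map_smul]; rw [hov, smul_eq_C_mul]
      rw [h1, hfac, ← coeff_C_mul]
      congr 1
      have h2 : C ‖v j‖ * C ‖v j‖⁻¹ = (1 : ℝ[X]) := by
        rw [← C_mul, mul_inv_cancel₀ (norm_ne_zero_iff.2 (hv0 j)), C_1]
      calc C ‖v j‖ * ((C (a j) * X + C (b j)) * (C ‖v j‖⁻¹ * g j))
          = (C ‖v j‖ * C ‖v j‖⁻¹) * ((C (a j) * X + C (b j)) * g j) := by ring
        _ = _ := by rw [h2, one_mul]
    have hTφ : ∀ k, Tendsto (fun j => (f (φ j + N)).coeff k) atTop (𝓝 (p.coeff k)) := fun k =>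
      (hT k).comp (tendsto_atTop_mono (fun j => Nat.le_add_right _ _) hφ.tendsto_atTop)
    obtain ⟨k₁, hk₁⟩ : ∃ k, ((C α * X + C β) * q).coeff k ≠ 0 := by
      by_contra hcon
      push Not at hcon
      exact (mul_ne_zero hlin0 hq0) (Polynomial.ext (by simpa using hcon))
    set c := p.coeff k₁ / ((C α * X + C β) * q).coeff k₁ with hc
    have hcl : Tendsto (fun j => ‖v (φ j)‖) atTop (𝓝 c) := by
      have h1 := (hTφ k₁).div (hprod k₁) hk₁
      refine h1.congr' ?_
      filter_upwards [(hprod k₁).eventually_ne hk₁] with j hj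
      simp only [Pi.div_apply]
      rw [← hscale, mul_div_assoc, div_self hj, mul_one]
    have hpc : p = C c * ((C α * X + C β) * q) := by
      ext k
      rw [coeff_C_mul]
      refine tendsto_nhds_unique (hTφ k) ?_
      refine (hcl.mul (hprod k)).congr fun j => ?_
      exact hscale (φ j) k
    have hc0 : c ≠ 0 := by
      intro h0; rw [hpc, h0] at hp; simp at hp
    have hZp : Zc p = Zc q := by
      rw [hpc, Zc_C_mul hc0, Zc_mul hlin0 hq0, Zc_of_natDegree_le_one
        (p := C α * X + C β) (by compute_degree)]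
      omega
    rw [hZp]
    refine ih m (fun j => ofFn (n + 1) (w (φ j))) (fun j => ?_) (fun j => ?_) q hq0 hqc
    · exact Nat.lt_succ_iff.1 (ofFn_natDegree_lt (by omega) _)
    · have h1 : ofFn (n + 1) (w (φ j)) = C (‖v (φ j)‖⁻¹) * g (φ j) := by
        rw [hw]; simp only [map_smul]; rw [hov, smul_eq_C_mul]
      rw [h1, Zc_C_mul (inv_ne_zero (norm_ne_zero_iff.2 (hv0 _)))]
      exact hZg _

end Pool.Agent.NRZ
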