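import Pool.Agent.Lib.MP_0d7657_an.Zc

set_option autoImplicit false

namespace Pool.Agent.NRZ

open Polynomial

/-- The space `π_n` of real polynomials of degree at most `n` (degree `< n + 1`). -/
noncomputable abbrev PiN (n : ℕ) : Submodule ℝ ℝ[X] := degreeLT ℝ (n + 1)

/-- `T` is non-real-zero non-increasing: `Z_c(T p) ≤ Z_c(p)` whenever `p ≠ 0` and `T p ≠ 0`. -/
def NonIncreasing {n : ℕ} (T : PiN n →ₗ[ℝ] PiN n) : Prop :=
  ∀ p : PiN n, p ≠ 0 → T p ≠ 0 → Zc (T p : ℝ[X]) ≤ Zc (p : ℝ[X])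

/-- `T` maps polynomials with only real zeros to polynomials with only real zeros (or to `0`). -/
def PreservesRealRooted {n : ℕ} (T : PiN n →ₗ[ℝ] PiN n) : Prop :=
  ∀ p : PiN n, p ≠ 0 → T p ≠ 0 → Zc (p : ℝ[X]) = 0 → Zc (T p : ℝ[X]) = 0

/-- The matrix of `A` (in the monomial basis), as an operator on coefficient vectors. -/
noncomputable def coord {n : ℕ} (A : PiN n →ₗ[ℝ] PiN n) :
    (Fin (n + 1) → ℝ) →L[ℝ] (Fin (n + 1) → ℝ) :=
  LinearMap.toContinuousLinearMap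
    ((degreeLTEquiv ℝ (n + 1)).toLinearMap ∘ₗ A ∘ₗ (degreeLTEquiv ℝ (n + 1)).symm.toLinearMap)

/-- The exponential `e^{tA}` of an operator `A` on `π_n`, computed in coefficient coordinates. -/
noncomputable def expo {n : ℕ} (A : PiN n →ₗ[ℝ] PiN n) (t : ℝ) : PiN n →ₗ[ℝ] PiN n :=
  (degreeLTEquiv ℝ (n + 1)).symm.toLinearMap ∘ₗ
    (NormedSpace.exp (t • coord A) : (Fin (n + 1) → ℝ) →L[ℝ] (Fin (n + 1) → ℝ)).toLinearMap ∘ₗ
      (degreeLTEquiv ℝ (n + 1)).toLinearMap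

/-- `A = -c D² + b D + d` with polynomials `c, b, d` such that `c ≥ 0` on `ℝ`. -/
def IsSecondOrder {n : ℕ} (A : PiN n →ₗ[ℝ] PiN n) : Prop :=
  ∃ c b d : ℝ[X], (∀ x : ℝ, 0 ≤ c.eval x) ∧ ∀ p : PiN n,
    (A p : ℝ[X]) = -(c * derivative (derivative (p : ℝ[X]))) + b * derivative (p : ℝ[X]) + d * p

end Pool.Agent.NRZ
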