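import Mathlib

set_option autoImplicit false

namespace Pool.Agent.NRZ

open Filter Topology

section

variable {𝔸 : Type*} [NormedRing 𝔸] [NormOneClass 𝔸]

lemma norm_pow_sub_pow_le' {a b : 𝔸} {M : ℝ} (hM : 1 ≤ M) (ha : ‖a‖ ≤ M) (hb : ‖b‖ ≤ M)
    (k : ℕ) : ‖a ^ k - b ^ k‖ ≤ k * M ^ k * ‖a - b‖ := by
  have hM0 : 0 ≤ M := by linarith
  induction k with
  | zero => simp
  | succ k ih =>
    have e : a ^ (k + 1) - b ^ (k + 1) = a * (a ^ k - b ^ k) + (a - b) * b ^ k := by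
      rw [pow_succ', pow_succ']; noncomm_ring
    rw [e]
    have hbk : ‖b ^ k‖ ≤ M ^ k := (norm_pow_le b k).trans (pow_le_pow_left₀ (norm_nonneg _) hb k)
    have h1 : M ^ k ≤ M ^ (k + 1) := pow_le_pow_right₀ hM (Nat.le_succ k)
    calc ‖a * (a ^ k - b ^ k) + (a - b) * b ^ k‖
        ≤ ‖a‖ * ‖a ^ k - b ^ k‖ + ‖a - b‖ * ‖b ^ k‖ :=
          (norm_add_le _ _).trans (add_le_add (norm_mul_le _ _) (norm_mul_le _ _))
      _ ≤ M * (k * M ^ k * ‖a - b‖) + ‖a - b‖ * M ^ (k + 1) := by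
          gcongr
          exact hbk.trans h1
      _ = ((k + 1 : ℕ) : ℝ) * M ^ (k + 1) * ‖a - b‖ := by push_cast; ring

variable [NormedAlgebra ℝ 𝔸] [CompleteSpace 𝔸]

lemma tendsto_exp_sub_one (A : 𝔸) :
    Tendsto (fun m : ℕ => (m : ℝ) • (NormedSpace.exp ((m : ℝ)⁻¹ • A) - 1)) atTop (𝓝 A) := by
  have h1 := hasDerivAt_exp_smul_const (𝕂 := ℝ) A (0 : ℝ)
  have h2 : NormedSpace.exp ((0 : ℝ) • A) * A = A := by
    rw [zero_smul, NormedSpace.exp_zero, one_mul]
  rw [h2] at h1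
  have h3 := h1.tendsto_slope_zero
  have h4 : Tendsto (fun m : ℕ => ((m : ℝ))⁻¹) atTop (𝓝[≠] 0) := by
    rw [tendsto_nhdsWithin_iff]
    refine ⟨tendsto_inv_atTop_nhds_zero_nat, ?_⟩
    filter_upwards [eventually_gt_atTop 0] with m hm
    have : (m : ℝ) ≠ 0 := by positivity
    simpa using this
  have h5 := h3.comp h4
  refine h5.congr' ?_
  filter_upwards [eventually_gt_atTop 0] with m hm
  simp [Function.comp, NormedSpace.exp_zero]

theorem tendsto_pow_exp (T : ℕ → 𝔸) (A : 𝔸)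
    (h : Tendsto (fun m : ℕ => (m : ℝ) • (T m - 1)) atTop (𝓝 A)) :
    Tendsto (fun m => T m ^ m) atTop (𝓝 (NormedSpace.exp A)) := by
  set E : ℕ → 𝔸 := fun m => NormedSpace.exp ((m : ℝ)⁻¹ • A) with hE
  have hEpow : ∀ m : ℕ, 1 ≤ m → E m ^ m = NormedSpace.exp A := by
    intro m hm
    have hm0 : (m : ℝ) ≠ 0 := by positivity
    let +nondep : NormedAlgebra ℚ 𝔸 := .restrictScalars ℚ ℝ 𝔸
    rw [hE]
    simp only
    rw [← NormedSpace.exp_nsmul, ← Nat.cast_smul_eq_nsmul ℝ, smul_smul, mul_inv_cancel₀ hm0,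
      one_smul]
  have hEl := tendsto_exp_sub_one A
  set C := ‖A‖ + 1 with hC
  have hC0 : 0 < C := by positivity
  have hT1 : ∀ᶠ m : ℕ in atTop, ‖(m : ℝ) • (T m - 1)‖ ≤ C :=
    h.norm.eventually_le_const (by rw [hC]; linarith)
  have hE1 : ∀ᶠ m : ℕ in atTop, ‖(m : ℝ) • (E m - 1)‖ ≤ C :=
    hEl.norm.eventually_le_const (by rw [hC]; linarith)
  have hdiff : Tendsto (fun m : ℕ => ‖(m : ℝ) • (T m - E m)‖) atTop (𝓝 0) := by
    have h1 := (h.sub hEl).norm
    rw [sub_self, norm_zero] at h1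
    refine h1.congr fun m => ?_
    rw [← smul_sub]
    congr 2
    abel
  have hbound : ∀ᶠ m : ℕ in atTop, ‖T m ^ m - NormedSpace.exp A‖ ≤
      Real.exp C * ‖(m : ℝ) • (T m - E m)‖ := by
    filter_upwards [hT1, hE1, eventually_ge_atTop 1] with m h1 h2 hm
    have hm0 : (0 : ℝ) < m := by positivity
    have key : ∀ S : 𝔸, ‖(m : ℝ) • (S - 1)‖ ≤ C → ‖S‖ ≤ 1 + C / m := by
      intro S hS
      rw [norm_smul, Real.norm_of_nonneg hm0.le] at hS
      have h3 : ‖S - 1‖ ≤ C / m := by rw [le_div_iff₀ hm0]; linarith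
      calc ‖S‖ = ‖1 + (S - 1)‖ := by congr 1; abel
        _ ≤ ‖(1 : 𝔸)‖ + ‖S - 1‖ := norm_add_le _ _
        _ ≤ 1 + C / m := by rw [norm_one]; linarith
    have hM : (1 : ℝ) ≤ 1 + C / m := by
      have : 0 ≤ C / m := by positivity
      linarith
    have h4 := norm_pow_sub_pow_le' hM (key _ h1) (key _ h2) m
    rw [hEpow m hm] at h4
    refine h4.trans ?_
    have h5 : (1 + C / m) ^ m ≤ Real.exp C := by
      have h6 : 1 + C / m ≤ Real.exp (C / m) := by
        have := Real.add_one_le_exp (C / m); linarith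
      calc (1 + C / m) ^ m ≤ Real.exp (C / m) ^ m := pow_le_pow_left₀ (by linarith) h6 m
        _ = Real.exp C := by
          rw [← Real.exp_nat_mul]
          congr 1
          field_simp
    rw [norm_smul, Real.norm_of_nonneg hm0.le]
    calc (m : ℝ) * (1 + C / m) ^ m * ‖T m - E m‖ ≤ m * Real.exp C * ‖T m - E m‖ := by gcongr
      _ = _ := by ring
  rw [tendsto_iff_norm_sub_tendsto_zero]
  refine squeeze_zero' (Eventually.of_forall fun m => norm_nonneg _) hbound ?_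
  have := hdiff.const_mul (Real.exp C)
  simpa using this

/-- Product formula. -/
theorem tendsto_prod_pow_exp (L : List 𝔸) :
    Tendsto (fun m : ℕ => ((L.map (fun B => 1 + (m : ℝ)⁻¹ • B)).prod) ^ m) atTop
      (𝓝 (NormedSpace.exp L.sum)) := by
  apply tendsto_pow_exp
  induction L with
  | nil => simp
  | cons B L ih =>
    simp only [List.map_cons, List.prod_cons, List.sum_cons]
    set S : ℕ → 𝔸 := fun m => (L.map (fun B => 1 + (m : ℝ)⁻¹ • B)).prod with hS
    have hinv : Tendsto (fun m : ℕ => ((m : ℝ))⁻¹) atTop (𝓝 0) := tendsto_inv_atTop_nhds_zero_nat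
    have hS1 : Tendsto S atTop (𝓝 1) := by
      have h1 := hinv.smul ih
      rw [zero_smul] at h1
      have h2 : Tendsto (fun m => S m - 1) atTop (𝓝 0) := by
        refine h1.congr' ?_
        filter_upwards [eventually_gt_atTop 0] with m hm
        have : (m : ℝ) ≠ 0 := by positivity
        rw [smul_smul, inv_mul_cancel₀ this, one_smul]
      simpa using h2.add_const 1
    have h3 : Tendsto (fun m => B * S m + (m : ℝ) • (S m - 1)) atTop (𝓝 (B * 1 + L.sum)) :=
      (hS1.const_mul B).add ih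
    rw [mul_one] at h3
    refine h3.congr' ?_
    filter_upwards [eventually_gt_atTop 0] with m hm
    have : (m : ℝ) ≠ 0 := by positivity
    have e : (1 + (m : ℝ)⁻¹ • B) * S m - 1 = (m : ℝ)⁻¹ • (B * S m) + (S m - 1) := by
      rw [add_mul, one_mul, smul_mul_assoc]; abel
    rw [e, smul_add, smul_smul, mul_inv_cancel₀ this, one_smul]

end

end Pool.Agent.NRZ
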