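import Pool.Agent.Lib.MP_0d7657_an.Ops
import Pool.Agent.Lib.MP_0d7657_an.Expo

set_option autoImplicit false
set_option linter.unusedSimpArgs false

namespace Pool.Agent.NRZ

open Polynomial Filter Topology

variable {n : ℕ}

/-- The second order differential operator `-c D² + b D + d`. -/
noncomputable def FA (c b d : ℝ[X]) : LM :=
  -((LinearMap.mulLeft ℝ c) ∘ₗ (derivative : LM) ∘ₗ (derivative : LM)) +
    (LinearMap.mulLeft ℝ b) ∘ₗ (derivative : LM) + LinearMap.mulLeft ℝ d

lemma FA_apply (c b d p : ℝ[X]) :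
    FA c b d p = -(c * derivative (derivative p)) + b * derivative p + d * p := rfl

/-- The squares of the good first order operators. -/
lemma Xl_sq (l p : ℝ[X]) : Xl n l (Xl n l p) =
    l ^ 2 * derivative (derivative p) + (1 - C (n : ℝ)) * l * derivative l * derivative p
      + (C ((n : ℝ) / 2) * C ((n : ℝ) / 2) * derivative l ^ 2
        - C ((n : ℝ) / 2) * l * derivative (derivative l)) * p := by
  have e : C (n : ℝ) = C ((n : ℝ) / 2) * 2 := by
    rw [show (2 : ℝ[X]) = C 2 from (C_ofNat 2).symm, ← C_mul]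
    congr 1; ring
  rw [Xl_apply, Xl_apply, e]
  simp only [derivative_sub, derivative_mul, derivative_C]
  ring

lemma coeff_FA_pow (c b d : ℝ[X]) (k j : ℕ) :
    (FA c b d (X ^ k)).coeff (k + j) = -((k : ℝ) * (k - 1)) * c.coeff (j + 2)
      + k * b.coeff (j + 1) + d.coeff j := by
  rw [FA_apply, coeff_add, coeff_add, coeff_neg]
  have h3 : (d * X ^ k).coeff (k + j) = d.coeff j := by
    rw [add_comm k j, coeff_mul_X_pow]
  rw [h3]
  rcases k with _ | _ | k
  · simp
  · simp only [zero_add, pow_one, derivative_X, derivative_one, mul_zero, coeff_zero, neg_zero,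
      mul_one, Nat.cast_one, sub_self, one_mul, zero_mul]
    rw [add_comm 1 j]
  · have h1 : derivative (X ^ (k + 1 + 1) : ℝ[X]) = C ((k : ℝ) + 1 + 1) * X ^ (k + 1) := by
      rw [derivative_X_pow]; simp
    have h2 : derivative (C ((k : ℝ) + 1 + 1) * X ^ (k + 1) : ℝ[X]) =
        C (((k : ℝ) + 1 + 1) * (k + 1)) * X ^ k := by
      rw [derivative_C_mul, derivative_X_pow, ← mul_assoc, C_mul]; simp
    rw [h1, h2]
    have e1 : c * (C (((k : ℝ) + 1 + 1) * (k + 1)) * X ^ k) =
        C (((k : ℝ) + 1 + 1) * (k + 1)) * (c * X ^ k) := by ring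
    have e2 : b * (C ((k : ℝ) + 1 + 1) * X ^ (k + 1)) =
        C ((k : ℝ) + 1 + 1) * (b * X ^ (k + 1)) := by ring
    rw [e1, e2, coeff_C_mul, coeff_C_mul]
    have e3 : k + 1 + 1 + j = (j + 2) + k := by ring
    have e4 : k + 1 + 1 + j = (j + 1) + (k + 1) := by ring
    have h5 : (c * X ^ k).coeff (k + 1 + 1 + j) = c.coeff (j + 2) := by
      rw [e3, coeff_mul_X_pow]
    have h6 : (b * X ^ (k + 1)).coeff (k + 1 + 1 + j) = b.coeff (j + 1) := by
      rw [e4, coeff_mul_X_pow]
    rw [h5, h6]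
    push_cast
    ring

lemma coeff_FA_eq_zero {c b d : ℝ[X]} (h : Pres n (FA c b d)) {k j : ℕ} (hk : k ≤ n)
    (hj : n < k + j) : -((k : ℝ) * (k - 1)) * c.coeff (j + 2) + k * b.coeff (j + 1)
      + d.coeff j = 0 := by
  rw [← coeff_FA_pow]
  refine coeff_eq_zero_of_natDegree_lt (lt_of_le_of_lt (h _ ?_) hj)
  rw [natDegree_X_pow]; exact hk

lemma natDegree_c_le {c b d : ℝ[X]} (hn : 2 ≤ n) (h : Pres n (FA c b d)) : c.natDegree ≤ 4 := by
  rw [natDegree_le_iff_coeff_eq_zero]
  intro k hk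
  obtain ⟨j, rfl⟩ : ∃ j, k = (j + 3) + 2 := ⟨k - 5, by omega⟩
  have h1 := coeff_FA_eq_zero h (k := n) (j := j + 3) le_rfl (by omega)
  have h2 := coeff_FA_eq_zero h (k := n - 1) (j := j + 3) (by omega) (by omega)
  have h3 := coeff_FA_eq_zero h (k := n - 2) (j := j + 3) (by omega) (by omega)
  have e1 : ((n - 1 : ℕ) : ℝ) = n - 1 := by rw [Nat.cast_sub (by omega)]; simp
  have e2 : ((n - 2 : ℕ) : ℝ) = n - 2 := by rw [Nat.cast_sub (by omega)]; simp
  rw [e1] at h2
  rw [e2] at h3
  linarith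

/-- A first order operator preserving the space of polynomials of degree at most `n`. -/
lemma first_order {b d : ℝ[X]} (hn : 1 ≤ n) (h : Pres n (FA 0 b d)) :
    ∃ β₀ β₁ β₂ κ : ℝ, FA 0 b d = β₀ • (derivative : LM) + β₁ • H n + β₂ • K n +
      κ • (LinearMap.id : LM) := by
  have hb : ∀ j, 2 ≤ j → b.coeff (j + 1) = 0 ∧ d.coeff j = 0 := by
    intro j hj
    have h1 := coeff_FA_eq_zero h (k := n) (j := j) le_rfl (by omega)
    have h2 := coeff_FA_eq_zero h (k := n - 1) (j := j) (by omega) (by omega)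
    have e1 : ((n - 1 : ℕ) : ℝ) = n - 1 := by rw [Nat.cast_sub (by omega)]; simp
    rw [e1] at h2
    simp only [coeff_zero, mul_zero, zero_add] at h1 h2
    have h3 : b.coeff (j + 1) = 0 := by linarith
    rw [h3, mul_zero, zero_add] at h1
    exact ⟨h3, h1⟩
  have h1 := coeff_FA_eq_zero h (k := n) (j := 1) le_rfl (by omega)
  simp only [coeff_zero, mul_zero, zero_add] at h1
  have hbe : b = C (b.coeff 0) + C (b.coeff 1) * X + C (b.coeff 2) * X ^ 2 := by
    ext k
    rcases k with _ | _ | _ | k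
    · simp
    · simp [coeff_X, coeff_X_pow, coeff_C]
    · simp [coeff_X, coeff_X_pow, coeff_C]
    · rw [(hb (k + 2) (by omega)).1]
      simp [coeff_X, coeff_X_pow, coeff_C]
  have hde : d = C (d.coeff 0) + C (d.coeff 1) * X := by
    ext k
    rcases k with _ | _ | k
    · simp
    · simp [coeff_X, coeff_C]
    · rw [(hb (k + 2) (by omega)).2]
      simp [coeff_X, coeff_C]
  refine ⟨b.coeff 0, b.coeff 1, b.coeff 2, d.coeff 0 + n / 2 * b.coeff 1, ?_⟩
  apply LinearMap.ext
  intro p
  have hd1 : d.coeff 1 = -(n * b.coeff 2) := by linarith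
  simp only [LinearMap.add_apply, LinearMap.smul_apply, LinearMap.id_apply, H_apply, K_apply,
    smul_eq_C_mul]
  rw [FA_apply]
  rw [hd1] at hde
  conv_lhs => rw [hbe, hde]
  simp only [C_add, C_mul, C_neg]
  ring

/-- Nonnegative polynomials of degree at most four. -/
lemma quartic_decomp {c : ℝ[X]} (hdeg : c.natDegree ≤ 4) (hc : ∀ x, 0 ≤ c.eval x) :
    ∃ κ₀ κ₁ κ₂ a b : ℝ, 0 ≤ κ₀ ∧ 0 ≤ κ₁ ∧ 0 ≤ κ₂ ∧
      c = C κ₀ * 1 ^ 2 + C κ₁ * (X - C a) ^ 2 + C κ₂ * ((X - C a) * (X - C b)) ^ 2 := by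
  obtain ⟨a, ha⟩ := c.exists_forall_norm_le
  have ha' : ∀ y, c.eval a ≤ c.eval y := by
    intro y
    have := ha y
    rwa [Real.norm_of_nonneg (hc a), Real.norm_of_nonneg (hc y)] at this
  set κ₀ := c.eval a with hκ₀
  -- `c - κ₀` has a double root at `a`
  have hroot : (c - C κ₀).IsRoot a := by simp [hκ₀]
  obtain ⟨q₁, hq₁⟩ := dvd_iff_isRoot.2 hroot
  have hq₁e : ∀ y, (y - a) * q₁.eval y = c.eval y - κ₀ := by
    intro y
    have := congrArg (fun r : ℝ[X] => r.eval y) hq₁
    simp at this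
    linarith
  have hroot2 : q₁.IsRoot a := by
    have hcont : Continuous (fun y => q₁.eval y) := q₁.continuous
    have h1 : ∀ y, a < y → 0 ≤ q₁.eval y := by
      intro y hy
      have h2 := hq₁e y
      have h3 := ha' y
      by_contra hneg
      push Not at hneg
      nlinarith
    have h2 : ∀ y, y < a → q₁.eval y ≤ 0 := by
      intro y hy
      have h2 := hq₁e y
      have h3 := ha' y
      by_contra hneg
      push Not at hneg
      nlinarith
    have h3 : 0 ≤ q₁.eval a := by
      have hcl := ge_of_tendsto (x := 𝓝[>] a) (f := fun y => q₁.eval y)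
        (hcont.continuousAt.tendsto.mono_left nhdsWithin_le_nhds)
        (by filter_upwards [self_mem_nhdsWithin] with y hy; exact h1 y hy)
      exact hcl
    have h4 : q₁.eval a ≤ 0 := by
      have hcl := le_of_tendsto (x := 𝓝[<] a) (f := fun y => q₁.eval y)
        (hcont.continuousAt.tendsto.mono_left nhdsWithin_le_nhds)
        (by filter_upwards [self_mem_nhdsWithin] with y hy; exact h2 y hy)
      exact hcl
    exact le_antisymm h4 h3
  obtain ⟨q, hq⟩ := dvd_iff_isRoot.2 hroot2
  have hfac : c - C κ₀ = (X - C a) ^ 2 * q := by rw [hq₁, hq]; ring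
  have hqe : ∀ y, (y - a) ^ 2 * q.eval y = c.eval y - κ₀ := by
    intro y
    have := congrArg (fun r : ℝ[X] => r.eval y) hfac
    simp at this
    linarith
  have hqdeg : q.natDegree ≤ 2 := by
    by_cases hq0 : q = 0
    · simp [hq0]
    · have h1 : (c - C κ₀).natDegree ≤ 4 := by rw [natDegree_sub_C]; exact hdeg
      rw [hfac, natDegree_mul (pow_ne_zero _ (X_sub_C_ne_zero a)) hq0, natDegree_pow,
        natDegree_X_sub_C] at h1
      omega
  have hq0 : ∀ y, 0 ≤ q.eval y := by
    have h1 : ∀ y, y ≠ a → 0 ≤ q.eval y := by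
      intro y hy
      have h2 := hqe y
      have h3 := ha' y
      have h4 : 0 < (y - a) ^ 2 := by
        have : y - a ≠ 0 := sub_ne_zero.2 hy
        positivity
      by_contra hneg
      push Not at hneg
      nlinarith
    intro y
    by_cases hy : y = a
    · rw [hy]
      exact ge_of_tendsto (x := 𝓝[≠] a) (f := fun y => q.eval y)
        (q.continuous.continuousAt.tendsto.mono_left nhdsWithin_le_nhds)
        (by filter_upwards [self_mem_nhdsWithin] with y hy; exact h1 y hy)
    · exact h1 y hy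
  -- decompose `q`
  have hqform : q = C (q.coeff 2) * X ^ 2 + C (q.coeff 1) * X + C (q.coeff 0) := by
    ext k
    rcases k with _ | _ | _ | k
    · simp
    · simp [coeff_X, coeff_X_pow, coeff_C]
    · simp [coeff_X, coeff_X_pow, coeff_C]
    · rw [coeff_eq_zero_of_natDegree_lt (by omega)]
      simp [coeff_X, coeff_X_pow, coeff_C]
  set u := q.coeff 2 with hu
  set v := q.coeff 1 with hv
  set w := q.coeff 0 with hw
  have hev : ∀ y, 0 ≤ u * y ^ 2 + v * y + w := by
    intro y
    have h1 := hq0 y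
    rw [hqform] at h1
    simpa using h1
  have hκ₀0 : 0 ≤ κ₀ := hc a
  have hcq : c = C κ₀ + (X - C a) ^ 2 * q := by rw [← hfac]; ring
  rcases lt_trichotomy u 0 with hneg | hz | hpos
  · exfalso
    -- large y gives a negative value
    have h1 := hev ((|v| + |w| + 1) / (-u) + 1)
    set y := (|v| + |w| + 1) / (-u) + 1 with hy
    have hy1 : 1 ≤ y := by
      have : 0 ≤ (|v| + |w| + 1) / (-u) := div_nonneg (by positivity) (by linarith)
      linarith
    have h2 : (-u) * y ≥ |v| + |w| + 1 := by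
      rw [hy, mul_add, mul_div_cancel₀ _ (by linarith : (-u) ≠ 0)]
      linarith
    have h3 : v ≤ |v| := le_abs_self v
    have h4 : w ≤ |w| := le_abs_self w
    have h5 := abs_nonneg w
    nlinarith [mul_le_mul_of_nonneg_right h2 (by linarith : (0 : ℝ) ≤ y)]
  · have hv0 : v = 0 := by
      by_contra hv0
      have h1 := hev (-(w + 1) / v)
      rw [hz, zero_mul, zero_add, mul_div_cancel₀ _ hv0] at h1
      linarith
    have hw0 : 0 ≤ w := by have := hev 0; simpa using this
    refine ⟨κ₀, w, 0, a, 0, hκ₀0, hw0, le_rfl, ?_⟩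
    rw [hcq]
    have : q = C w := by rw [hqform, hz, hv0]; simp
    rw [this, C_0]
    ring
  · set e := -v / (2 * u) with he
    have h1 : v = -(2 * u * e) := by rw [he]; field_simp
    have h2 : 0 ≤ w - u * e ^ 2 := by
      have := hev e
      rw [h1] at this
      nlinarith
    refine ⟨κ₀, w - u * e ^ 2, u, a, e, hκ₀0, h2, hpos.le, ?_⟩
    rw [hcq]
    have h3 : q = C u * (X - C e) ^ 2 + C (w - u * e ^ 2) := by
      rw [hqform, h1]
      simp only [C_sub, C_mul, C_neg, C_pow]
      rw [show (C (2 : ℝ) : ℝ[X]) = 2 from C_ofNat 2]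
      ring
    rw [h3]
    ring

end Pool.Agent.NRZ
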