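import Pool.Agent.Lib.MP_0d7657_an.Suff

set_option autoImplicit false

namespace Pool.Agent.NRZ

open Polynomial Filter Topology

variable {n : ℕ}

/-- The Laguerre inequality for real-rooted polynomials. -/
lemma laguerre {p : ℝ[X]} (hp : p ≠ 0) (h : Zc p = 0) (x : ℝ) :
    p.eval x * (derivative (derivative p)).eval x ≤ (derivative p).eval x ^ 2 := by
  revert hp h
  refine WfDvdMonoid.induction_on_irreducible p ?_ ?_ ?_
  · intro h; exact absurd rfl h
  · intro u hu _ _
    have h3 : u.natDegree = 0 := natDegree_eq_zero_of_isUnit hu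
    rw [derivative_of_natDegree_zero h3]
    simp
  · intro a i ha hi ih hia hz
    rw [Zc_mul hi.ne_zero ha] at hz
    have h1 := ih ha (by omega)
    have h2 : i.natDegree = 1 := by
      have hd := hi.natDegree_le_two
      have hpos : 0 < i.natDegree := hi.natDegree_pos
      by_contra hne
      have := Zc_irreducible hi (by omega)
      omega
    have h3 : derivative (derivative i) = 0 := by
      apply derivative_of_natDegree_zero
      have := natDegree_derivative_le i
      omega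
    simp only [derivative_mul, derivative_add, h3, zero_mul, zero_add, eval_add, eval_mul]
    nlinarith [mul_nonneg (sq_nonneg (i.eval x)) (sub_nonneg.2 h1),
      sq_nonneg ((derivative i).eval x * a.eval x)]

lemma deriv_nonneg_of_nonneg {φ : ℝ → ℝ} {φ' : ℝ} (h0 : φ 0 = 0) (hpos : ∀ t, 0 ≤ t → 0 ≤ φ t)
    (hd : HasDerivAt φ φ' 0) : 0 ≤ φ' := by
  have h1 := hd.tendsto_slope_zero_right
  refine ge_of_tendsto h1 ?_
  filter_upwards [self_mem_nhdsWithin] with t ht
  have ht' : (0 : ℝ) < t := ht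
  rw [zero_add, h0, sub_zero, smul_eq_mul]
  exact mul_nonneg (inv_nonneg.2 ht'.le) (hpos t ht'.le)

/-- The double zero condition. -/
lemma double_zero {A : V n →L[ℝ] V n}
    (hR : ∀ t : ℝ, 0 ≤ t → ∀ v, Zc (pl n v) = 0 → Zc (pl n (NormedSpace.exp (t • A) v)) = 0)
    {a : ℝ} {h : ℝ[X]} (hdeg : ((X - C a) ^ 2 * h).natDegree ≤ n) (hh : h ≠ 0)
    (hz : Zc ((X - C a) ^ 2 * h) = 0) :
    (pl n (A (cv n ((X - C a) ^ 2 * h)))).eval a * h.eval a ≤ 0 := by
  set p : ℝ[X] := (X - C a) ^ 2 * h with hp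
  set v : V n := cv n p with hv
  have hplv : pl n v = p := pl_cv hdeg
  -- linear functionals
  let ev0 : V n →ₗ[ℝ] ℝ := (Polynomial.leval a) ∘ₗ (pl n)
  let ev1 : V n →ₗ[ℝ] ℝ := (Polynomial.leval a) ∘ₗ (derivative : LM) ∘ₗ (pl n)
  let ev2 : V n →ₗ[ℝ] ℝ := (Polynomial.leval a) ∘ₗ (derivative : LM) ∘ₗ (derivative : LM) ∘ₗ (pl n)
  have hder : ∀ L : V n →ₗ[ℝ] ℝ, HasDerivAt (fun t : ℝ => L (NormedSpace.exp (t • A) v))
      (L (A v)) 0 := by
    intro L
    have h1 := hasDerivAt_exp_smul_const' (𝕂 := ℝ) A (0 : ℝ)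
    have h2 := h1.clm_apply (hasDerivAt_const (0 : ℝ) v)
    have h3 : (A * NormedSpace.exp ((0 : ℝ) • A)) v + (NormedSpace.exp ((0 : ℝ) • A)) 0 = A v := by
      rw [zero_smul, NormedSpace.exp_zero]; simp
    rw [h3] at h2
    exact (LinearMap.toContinuousLinearMap L).hasFDerivAt.comp_hasDerivAt (0 : ℝ) h2
  have hexp0 : NormedSpace.exp ((0 : ℝ) • A) v = v := by
    rw [zero_smul, NormedSpace.exp_zero]; rfl
  have hne : ∀ t : ℝ, pl n (NormedSpace.exp (t • A) v) ≠ 0 := by
    intro t h0
    have h1 : NormedSpace.exp (t • A) v = 0 := by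
      apply injective_ofFn (R := ℝ) (n + 1); rw [map_zero]; exact h0
    have h2 : NormedSpace.exp (-(t • A)) (NormedSpace.exp (t • A) v) = v := by
      let +nondep : NormedAlgebra ℚ (V n →L[ℝ] V n) := .restrictScalars ℚ ℝ _
      have h3 : NormedSpace.exp (-(t • A)) * NormedSpace.exp (t • A) = 1 := by
        rw [← NormedSpace.exp_add_of_commute (Commute.refl (t • A)).neg_left, neg_add_cancel,
          NormedSpace.exp_zero]
      calc NormedSpace.exp (-(t • A)) (NormedSpace.exp (t • A) v)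
          = (NormedSpace.exp (-(t • A)) * NormedSpace.exp (t • A)) v := rfl
        _ = v := by rw [h3]; rfl
    rw [h1, map_zero] at h2
    have h3 : p = 0 := by rw [← hplv, ← h2, map_zero]
    exact (mul_ne_zero (pow_ne_zero _ (X_sub_C_ne_zero a)) hh) h3
  have hzt : ∀ t : ℝ, 0 ≤ t → Zc (pl n (NormedSpace.exp (t • A) v)) = 0 := by
    intro t ht
    exact hR t ht v (by rw [hplv]; exact hz)
  set φ : ℝ → ℝ := fun t => ev1 (NormedSpace.exp (t • A) v) ^ 2 -
    ev0 (NormedSpace.exp (t • A) v) * ev2 (NormedSpace.exp (t • A) v) with hφ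
  have hd1 : derivative p = (X - C a) * (2 * h + (X - C a) * derivative h) := by
    rw [hp, derivative_mul, derivative_X_sub_C_sq, show (C (2 : ℝ) : ℝ[X]) = 2 from C_ofNat 2]
    ring
  have e0 : ev0 v = 0 := by
    show (pl n v).eval a = 0
    rw [hplv, hp]; simp
  have e1 : ev1 v = 0 := by
    show (derivative (pl n v)).eval a = 0
    rw [hplv, hd1]; simp
  have e2 : ev2 v = 2 * h.eval a := by
    show (derivative (derivative (pl n v))).eval a = _
    rw [hplv, hd1, derivative_mul]
    simp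
  have hφ0 : φ 0 = 0 := by
    rw [hφ]; simp only [hexp0, e0, e1]; ring
  have hφpos : ∀ t, 0 ≤ t → 0 ≤ φ t := by
    intro t ht
    have := laguerre (hne t) (hzt t ht) a
    rw [hφ]; simp only
    have h1 : ev0 (NormedSpace.exp (t • A) v) = (pl n (NormedSpace.exp (t • A) v)).eval a := rfl
    have h2 : ev1 (NormedSpace.exp (t • A) v) =
      (derivative (pl n (NormedSpace.exp (t • A) v))).eval a := rfl
    have h3 : ev2 (NormedSpace.exp (t • A) v) =
      (derivative (derivative (pl n (NormedSpace.exp (t • A) v)))).eval a := rfl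
    rw [h1, h2, h3]
    linarith
  have hφd : HasDerivAt φ (-(ev0 (A v) * (2 * h.eval a))) 0 := by
    have h1 := ((hder ev1).pow 2).sub ((hder ev0).mul (hder ev2))
    refine h1.congr_deriv ?_
    simp only [hexp0, e0, e1, e2]
    ring
  have h1 := deriv_nonneg_of_nonneg hφ0 hφpos hφd
  have h2 : ev0 (A v) = (pl n (A v)).eval a := rfl
  rw [h2] at h1
  linarith


/-- The triple zero condition. -/
lemma triple_zero_pow {A : V n →L[ℝ] V n}
    (hR : ∀ t : ℝ, 0 ≤ t → ∀ v, Zc (pl n v) = 0 → Zc (pl n (NormedSpace.exp (t • A) v)) = 0)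
    (a : ℝ) (j : ℕ) (hj : j + 3 ≤ n) :
    (pl n (A (cv n ((X - C a) ^ 3 * (X - C (a - 1)) ^ j)))).eval a = 0 := by
  set r : ℝ[X] := (X - C (a - 1)) ^ j with hr
  have hr0 : r ≠ 0 := pow_ne_zero _ (X_sub_C_ne_zero _)
  have hrd : r.natDegree = j := by rw [hr, natDegree_pow, natDegree_X_sub_C, mul_one]
  have hrz : Zc r = 0 := by
    have : ∀ k : ℕ, Zc ((X - C (a - 1)) ^ k : ℝ[X]) = 0 := by
      intro k
      induction k with
      | zero => rw [pow_zero]; exact Zc_of_natDegree_le_one (by simp)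
      | succ k ih =>
        rw [pow_succ, Zc_mul (pow_ne_zero _ (X_sub_C_ne_zero _)) (X_sub_C_ne_zero _), ih,
          Zc_of_natDegree_le_one (natDegree_X_sub_C _).le]
    exact this j
  have hra : r.eval a = 1 := by rw [hr]; simp
  set L : ℝ[X] →ₗ[ℝ] ℝ := (Polynomial.leval a) ∘ₗ (pl n) ∘ₗ (A : V n →ₗ[ℝ] V n) ∘ₗ (cv n) with hL
  have hLa : ∀ p, L p = (pl n (A (cv n p))).eval a := fun p => rfl
  set u := L ((X - C a) ^ 3 * r) with hu
  set w := L ((X - C a) ^ 2 * r) with hw
  have key : ∀ δ : ℝ, 0 ≤ δ * (u - δ * w) := by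
    intro δ
    have h1 := double_zero hR (a := a) (h := (X - C (a + δ)) * r) (n := n) ?_ ?_ ?_
    · rw [← hLa] at h1
      have e : (X - C a) ^ 2 * ((X - C (a + δ)) * r) =
          (X - C a) ^ 3 * r - δ • ((X - C a) ^ 2 * r) := by
        rw [smul_eq_C_mul, C_add]; ring
      rw [e, map_sub, map_smul, ← hu, ← hw] at h1
      simp only [eval_mul, eval_sub, eval_X, eval_C, hra, smul_eq_mul, mul_one] at h1
      nlinarith
    · rw [natDegree_mul (pow_ne_zero _ (X_sub_C_ne_zero _)) (mul_ne_zero (X_sub_C_ne_zero _) hr0),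
        natDegree_mul (X_sub_C_ne_zero _) hr0, natDegree_pow, natDegree_X_sub_C,
        natDegree_X_sub_C, hrd]
      omega
    · exact mul_ne_zero (X_sub_C_ne_zero _) hr0
    · rw [Zc_mul (pow_ne_zero _ (X_sub_C_ne_zero _)) (mul_ne_zero (X_sub_C_ne_zero _) hr0),
        Zc_mul (X_sub_C_ne_zero _) hr0, hrz, sq, Zc_mul (X_sub_C_ne_zero _) (X_sub_C_ne_zero _),
        Zc_of_natDegree_le_one (p := X - C a) (natDegree_X_sub_C _).le,
        Zc_of_natDegree_le_one (p := X - C (a + δ)) (natDegree_X_sub_C _).le]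
  rw [← hLa, ← hu]
  by_contra hne
  have hW : 0 < |w| + 1 := by positivity
  have h1 := key (-(u / (|w| + 1)))
  have h2 : -(u / (|w| + 1)) * (u - -(u / (|w| + 1)) * w) =
      -(u ^ 2 / (|w| + 1)) * (1 + w / (|w| + 1)) := by field_simp; ring
  rw [h2] at h1
  have h3 : 0 < u ^ 2 / (|w| + 1) := div_pos (by positivity) hW
  have h4 : 0 < 1 + w / (|w| + 1) := by
    have h5 : -1 < w / (|w| + 1) := by
      rw [lt_div_iff₀ hW]
      have := neg_abs_le w
      linarith
    linarith
  nlinarith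

lemma triple_zero {A : V n →L[ℝ] V n}
    (hR : ∀ t : ℝ, 0 ≤ t → ∀ v, Zc (pl n v) = 0 → Zc (pl n (NormedSpace.exp (t • A) v)) = 0)
    (a : ℝ) {r : ℝ[X]} (hr : r.natDegree + 3 ≤ n) :
    (pl n (A (cv n ((X - C a) ^ 3 * r)))).eval a = 0 := by
  set L : ℝ[X] →ₗ[ℝ] ℝ := (Polynomial.leval a) ∘ₗ (pl n) ∘ₗ (A : V n →ₗ[ℝ] V n) ∘ₗ (cv n) with hL
  have hLa : ∀ p, L p = (pl n (A (cv n p))).eval a := fun p => rfl
  rw [← hLa]
  have h1 := sum_taylor_eq r (a - 1)
  rw [← h1, Polynomial.sum_def, Finset.mul_sum, map_sum]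
  refine Finset.sum_eq_zero fun i hi => ?_
  have hi' : i ≤ r.natDegree := by
    have := le_natDegree_of_mem_supp i hi
    rwa [natDegree_taylor] at this
  have e : (X - C a) ^ 3 * (C ((taylor (a - 1) r).coeff i) * (X - C (a - 1)) ^ i) =
      (taylor (a - 1) r).coeff i • ((X - C a) ^ 3 * (X - C (a - 1)) ^ i) := by
    rw [smul_eq_C_mul]; ring
  rw [e, map_smul, hLa, triple_zero_pow hR a i (by omega), smul_zero]

/-- Necessity: the generator is a second order operator. -/
theorem exists_FA {A : V n →L[ℝ] V n}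
    (hR : ∀ t : ℝ, 0 ≤ t → ∀ v, Zc (pl n v) = 0 → Zc (pl n (NormedSpace.exp (t • A) v)) = 0) :
    ∃ c b d : ℝ[X], (∀ x, 0 ≤ c.eval x) ∧ ∀ v, pl n (A v) = FA c b d (pl n v) := by
  set Ap : ℝ[X] →ₗ[ℝ] ℝ[X] := (pl n) ∘ₗ (A : V n →ₗ[ℝ] V n) ∘ₗ (cv n) with hAp
  have hApv : ∀ v, pl n (A v) = Ap (pl n v) := by
    intro v
    show _ = pl n (A (cv n (pl n v)))
    rw [cv_pl]
  set d := Ap 1 with hd
  set b := Ap X - X * d with hb
  rcases Nat.lt_or_ge n 2 with hn | hn
  · refine ⟨0, b, d, fun x => by simp, fun v => ?_⟩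
    rw [hApv]
    have hpd : (pl n v).natDegree ≤ 1 := (natDegree_pl v).trans (by omega)
    obtain ⟨p0, p1, hpe⟩ : ∃ p0 p1 : ℝ, pl n v = p0 • (1 : ℝ[X]) + p1 • X := by
      refine ⟨(pl n v).coeff 0, (pl n v).coeff 1, ?_⟩
      have h1 := eq_X_add_C_of_natDegree_le_one hpd
      rw [smul_eq_C_mul, smul_eq_C_mul, mul_one]
      exact h1.trans (add_comm _ _)
    have e1 : derivative (p0 • (1 : ℝ[X]) + p1 • X) = C p1 := by
      simp [smul_eq_C_mul]
    have e2 : Ap X = b + X * d := by rw [hb]; ring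
    rw [FA_apply, hpe, map_add, map_smul, map_smul, ← hd, e1, e2]
    simp only [smul_eq_C_mul, derivative_C]
    ring
  · set c := C (-(1 / 2) : ℝ) * (Ap (X ^ 2) - 2 * X * b - X ^ 2 * d) with hc
    have h20 : C (-(1 / 2) : ℝ) * 2 = (-1 : ℝ[X]) := by
      rw [show (2 : ℝ[X]) = C 2 from (C_ofNat 2).symm, ← C_mul]
      norm_num
    have hF1 : FA c b d 1 = Ap 1 := by rw [FA_apply]; simp [hd]
    have hFX : FA c b d X = Ap X := by
      rw [FA_apply]; simp only [derivative_X, derivative_one, mul_zero, neg_zero, zero_add, mul_one]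
      rw [hb]; ring
    have hFX2 : FA c b d (X ^ 2) = Ap (X ^ 2) := by
      rw [FA_apply]
      have e1 : derivative (X ^ 2 : ℝ[X]) = 2 * X := by
        rw [sq, derivative_mul, derivative_X]; ring
      have e2 : derivative (2 * X : ℝ[X]) = 2 := by
        rw [show (2 : ℝ[X]) = C 2 from (C_ofNat 2).symm, derivative_C_mul]; simp
      rw [e1, e2, hc]
      linear_combination (-(Ap (X ^ 2) - 2 * X * b - X ^ 2 * d)) * h20
    -- agreement on polynomials of degree at most two
    have hquad : ∀ q : ℝ[X], q.natDegree ≤ 2 → FA c b d q = Ap q := by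
      intro q hq
      have hqe : q = q.coeff 2 • X ^ 2 + q.coeff 1 • X + q.coeff 0 • (1 : ℝ[X]) := by
        ext k
        rcases k with _ | _ | _ | k
        · simp
        · simp [coeff_one, coeff_X_pow]
        · simp [coeff_X, coeff_one]
        · rw [coeff_eq_zero_of_natDegree_lt (by omega)]
          simp [coeff_X, coeff_X_pow, coeff_one]
      rw [hqe]
      simp only [map_add, map_smul, hF1, hFX, hFX2]
    have hmain : ∀ p : ℝ[X], p.natDegree ≤ n → ∀ a, (Ap p).eval a = (FA c b d p).eval a := by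
      intro p hp a
      have hmon : ((X - C a) ^ 3 : ℝ[X]).Monic := (monic_X_sub_C a).pow 3
      have hdiv := modByMonic_add_div p ((X - C a) ^ 3)
      set rem := p %ₘ ((X - C a) ^ 3) with hrem
      set q := p /ₘ ((X - C a) ^ 3) with hq
      have hremd : rem.natDegree ≤ 2 := by
        have h1 := natDegree_modByMonic_lt p hmon (by
          intro h1
          have := congrArg natDegree h1
          rw [natDegree_pow, natDegree_X_sub_C, natDegree_one] at this
          omega)
        rw [natDegree_pow, natDegree_X_sub_C, ← hrem] at h1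
        omega
      rw [← hdiv, map_add, map_add, eval_add, eval_add, hquad rem hremd]
      congr 1
      have h2 : (FA c b d ((X - C a) ^ 3 * q)).eval a = 0 := by
        rw [FA_apply]
        simp only [derivative_mul, derivative_add, derivative_pow, derivative_X_sub_C, eval_add, eval_neg, eval_mul, eval_sub, eval_pow, eval_X, eval_C]
        simp
      rw [h2]
      rcases Nat.lt_or_ge n 3 with hn3 | hn3
      · have hq0 : q = 0 := by
          rw [hq, divByMonic_eq_zero_iff hmon]
          apply degree_lt_degree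
          rw [natDegree_pow, natDegree_X_sub_C]
          omega
        rw [hq0, mul_zero, map_zero, eval_zero]
      · have hqd : q.natDegree + 3 ≤ n := by
          have h1 := natDegree_divByMonic p hmon
          rw [natDegree_pow, natDegree_X_sub_C] at h1
          rw [← hq] at h1
          omega
        exact triple_zero hR a hqd
    have hAF : ∀ v, pl n (A v) = FA c b d (pl n v) := by
      intro v
      rw [hApv]
      exact Polynomial.funext (hmain _ (natDegree_pl v))
    refine ⟨c, b, d, fun a => ?_, hAF⟩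
    have h1 := double_zero hR (a := a) (h := 1) (n := n) ?_ one_ne_zero ?_
    · have hdeg : ((X - C a) ^ 2 * 1 : ℝ[X]).natDegree ≤ n := by
        rw [mul_one, natDegree_pow, natDegree_X_sub_C]; omega
      rw [hAF, pl_cv hdeg, FA_apply] at h1
      have e1 : derivative ((X - C a) ^ 2 * 1 : ℝ[X]) = 2 * (X - C a) := by
        rw [mul_one, derivative_X_sub_C_sq, show (C (2 : ℝ) : ℝ[X]) = 2 from C_ofNat 2]
      have e2 : derivative (2 * (X - C a) : ℝ[X]) = 2 := by
        rw [show (2 : ℝ[X]) = C 2 from (C_ofNat 2).symm, derivative_C_mul, derivative_X_sub_C]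
        simp
      rw [e1, e2] at h1
      simp at h1
      linarith
    · rw [mul_one, natDegree_pow, natDegree_X_sub_C]; omega
    · rw [mul_one, sq, Zc_mul (X_sub_C_ne_zero _) (X_sub_C_ne_zero _),
        Zc_of_natDegree_le_one (by simp)]

end Pool.Agent.NRZ
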