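import Pool.Agent.Lib.MP_0d7657_an.Rolle

set_option autoImplicit false

namespace Pool.Agent.NRZ

open Polynomial Filter Topology

/-- Linear maps of the space of all polynomials. -/
abbrev LM := ℝ[X] →ₗ[ℝ] ℝ[X]

/-- The operator preserves the space of polynomials of degree at most `n`. -/
def Pres (n : ℕ) (F : LM) : Prop := ∀ p : ℝ[X], p.natDegree ≤ n → (F p).natDegree ≤ n

/-- The operator does not increase the number of non-real zeros, in degree at most `n`. -/
def NI (n : ℕ) (F : LM) : Prop := ∀ p : ℝ[X], p.natDegree ≤ n → F p ≠ 0 → Zc (F p) ≤ Zc p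

variable {n : ℕ}

lemma Zc_zero : Zc (0 : ℝ[X]) = 0 := Zc_of_natDegree_le_one (by simp)

lemma NI.le {F : LM} (hF : NI n F) {p : ℝ[X]} (hp : p.natDegree ≤ n) : Zc (F p) ≤ Zc p := by
  by_cases h : F p = 0
  · rw [h, Zc_zero]; exact Nat.zero_le _
  · exact hF p hp h

lemma NI_of_le {F : LM} (hF : ∀ p : ℝ[X], p.natDegree ≤ n → Zc (F p) ≤ Zc p) : NI n F :=
  fun p hp _ => hF p hp

lemma NI.comp {F G : LM} (hF : NI n F) (hG : NI n G) (hGp : Pres n G) : NI n (F ∘ₗ G) :=
  NI_of_le fun p hp => (hF.le (hGp p hp)).trans (hG.le hp)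

lemma Pres.comp {F G : LM} (hF : Pres n F) (hG : Pres n G) : Pres n (F ∘ₗ G) :=
  fun p hp => hF _ (hG p hp)

lemma Pres.add {F G : LM} (hF : Pres n F) (hG : Pres n G) : Pres n (F + G) :=
  fun p hp => (natDegree_add_le _ _).trans (max_le (hF p hp) (hG p hp))

lemma Pres.smul {F : LM} (hF : Pres n F) (c : ℝ) : Pres n (c • F) :=
  fun p hp => (natDegree_smul_le _ _).trans (hF p hp)

lemma Pres.id : Pres n (LinearMap.id : LM) := fun _ hp => hp

lemma NI_congr {F G : LM} (hF : NI n F) (h : ∀ p : ℝ[X], p.natDegree ≤ n → F p = G p) : NI n G := by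
  intro p hp hne
  rw [← h p hp] at hne ⊢
  exact hF p hp hne

lemma NI_smul {F : LM} (hF : NI n F) (c : ℝ) : NI n (c • F) := by
  intro p hp hne
  have hc : c ≠ 0 := by rintro rfl; simp at hne
  rw [LinearMap.smul_apply, smul_eq_C_mul, Zc_C_mul hc]
  exact hF.le hp

/-- Limits of operators. -/
lemma NI_of_tendsto {F : LM} (G : ℕ → LM) (hG : ∀ j, NI n (G j)) (hGp : ∀ j, Pres n (G j))
    (h : ∀ p : ℝ[X], p.natDegree ≤ n → TC (fun j => G j p) (F p)) : NI n F := by
  intro p hp hne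
  exact Zc_closed n (Zc p) (fun j => G j p) (fun j => hGp j p hp) (fun j => (hG j).le hp) _ hne
    (h p hp)

/-! ### Translation and inversion -/

lemma Zc_taylor_le (a : ℝ) (p : ℝ[X]) : Zc (taylor a p) ≤ Zc p := by
  by_cases hp : p = 0
  · subst hp; simp
  refine Zc_le_of_multiplicative (fun p => taylor a p) (fun p q => taylor_mul a p q) ?_ ?_ ?_ hp
  · intro p hp h; exact hp ((taylor_eq_zero _ _).1 h)
  · intro p h; rwa [natDegree_taylor]
  · intro p h; rwa [natDegree_taylor]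

lemma Zc_reverse_le (p : ℝ[X]) : Zc p.reverse ≤ Zc p := by
  by_cases hp : p = 0
  · subst hp; simp
  refine Zc_le_of_multiplicative (fun p => p.reverse)
    (fun p q => reverse_mul_of_domain p q) ?_ ?_ ?_ hp
  · intro p hp h; exact hp (reverse_eq_zero.1 h)
  · intro p h; exact (reverse_natDegree_le p).trans h
  · intro p h; exact (reverse_natDegree_le p).trans h

/-- `p ↦ x^n p(1/x)`. -/
noncomputable def rv (n : ℕ) : LM where
  toFun := reflect n
  map_add' p q := reflect_add p q n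
  map_smul' c p := by rw [smul_eq_C_mul, reflect_C_mul, ← smul_eq_C_mul]; rfl

lemma rv_apply (p : ℝ[X]) : rv n p = reflect n p := rfl

lemma coeff_rv (p : ℝ[X]) (k : ℕ) : (rv n p).coeff k = p.coeff (revAt n k) := coeff_reflect n p k

lemma rv_rv (p : ℝ[X]) : rv n (rv n p) = p := by rw [rv_apply, rv_apply, reflect_reflect]

lemma Pres_rv : Pres n (rv n) := by
  intro p hp
  rw [natDegree_le_iff_coeff_eq_zero]
  intro k hk
  rw [coeff_rv, revAt_eq_self_of_lt hk]
  exact coeff_eq_zero_of_natDegree_lt (lt_of_le_of_lt hp hk)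

lemma Zc_rv_le {p : ℝ[X]} (hp : p.natDegree ≤ n) : Zc (rv n p) ≤ Zc p := by
  have h1 : rv n p = X ^ (n - p.natDegree) * p.reverse := by
    have h2 := reflect_mul p (1 : ℝ[X]) (F := p.natDegree) (G := n - p.natDegree) le_rfl (by simp)
    rw [mul_one, reflect_one] at h2
    have h3 : p.natDegree + (n - p.natDegree) = n := by omega
    rw [h3] at h2
    rw [rv_apply, h2, mul_comm]
    rfl
  rw [h1, Zc_X_pow_mul]
  exact Zc_reverse_le p

/-! ### Good operators -/

/-- `1 + ε G` does not increase the number of non-real zeros for all small real `ε`. -/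
def Good (n : ℕ) (G : LM) : Prop :=
  Pres n G ∧ ∃ ε₀ : ℝ, 0 < ε₀ ∧ ∀ ε : ℝ, |ε| ≤ ε₀ → NI n (LinearMap.id + ε • G)

lemma Good.congr {F G : LM} (hF : Good n F) (h : ∀ p : ℝ[X], p.natDegree ≤ n → F p = G p) :
    Good n G := by
  obtain ⟨h1, ε₀, h2, h3⟩ := hF
  refine ⟨fun p hp => by rw [← h p hp]; exact h1 p hp, ε₀, h2, fun ε hε => ?_⟩
  refine NI_congr (h3 ε hε) fun p hp => ?_
  simp [h p hp]

lemma Good.smul {F : LM} (hF : Good n F) (c : ℝ) : Good n (c • F) := by
  obtain ⟨h1, ε₀, h2, h3⟩ := hF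
  refine ⟨h1.smul c, ε₀ / (|c| + 1), by positivity, fun ε hε => ?_⟩
  rw [smul_smul]
  apply h3
  rw [abs_mul]
  have h4 : |ε| * (|c| + 1) ≤ ε₀ := by
    rw [le_div_iff₀ (by positivity)] at hε; exact hε
  have h5 : 0 ≤ |ε| := abs_nonneg _
  nlinarith

lemma Good.conj {F U U' : LM} (hF : Good n F) (hU : Pres n U) (hU' : Pres n U')
    (hZ : ∀ p : ℝ[X], p.natDegree ≤ n → Zc (U p) ≤ Zc p)
    (hZ' : ∀ p : ℝ[X], p.natDegree ≤ n → Zc (U' p) ≤ Zc p)
    (hinv : ∀ p : ℝ[X], p.natDegree ≤ n → U (U' p) = p) : Good n (U ∘ₗ F ∘ₗ U') := by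
  obtain ⟨h1, ε₀, h2, h3⟩ := hF
  refine ⟨hU.comp (h1.comp hU'), ε₀, h2, fun ε hε => ?_⟩
  have hP : Pres n (LinearMap.id + ε • F) := Pres.id.add (h1.smul ε)
  have h4 : NI n (U ∘ₗ (LinearMap.id + ε • F) ∘ₗ U') :=
    (NI_of_le hZ).comp ((h3 ε hε).comp (NI_of_le hZ') hU') (hP.comp hU')
  refine NI_congr h4 fun p hp => ?_
  simp only [LinearMap.comp_apply, LinearMap.add_apply, LinearMap.id_apply, LinearMap.smul_apply,
    map_add, map_smul, hinv p hp]

lemma Good.conj_taylor {F : LM} (hF : Good n F) (a : ℝ) :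
    Good n (taylor a ∘ₗ F ∘ₗ taylor (-a)) := by
  refine hF.conj ?_ ?_ (fun p _ => Zc_taylor_le a p) (fun p _ => Zc_taylor_le (-a) p) ?_
  · intro p hp; rwa [natDegree_taylor]
  · intro p hp; rwa [natDegree_taylor]
  · intro p _; rw [taylor_taylor]; simp

lemma Good.conj_rv {F : LM} (hF : Good n F) : Good n (rv n ∘ₗ F ∘ₗ rv n) :=
  hF.conj Pres_rv Pres_rv (fun _ hp => Zc_rv_le hp) (fun _ hp => Zc_rv_le hp)
    (fun p _ => rv_rv p)

/-- `H p = x p' - (n/2) p`. -/
noncomputable def H (n : ℕ) : LM :=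
  (LinearMap.mulLeft ℝ X) ∘ₗ derivative - ((n : ℝ) / 2) • LinearMap.id

lemma H_apply (p : ℝ[X]) : H n p = X * derivative p - C ((n : ℝ) / 2) * p := by
  simp [H, smul_eq_C_mul]

/-- `K p = x² p' - n x p`. -/
noncomputable def K (n : ℕ) : LM :=
  (LinearMap.mulLeft ℝ (X ^ 2)) ∘ₗ derivative - LinearMap.mulLeft ℝ (C (n : ℝ) * X)

lemma K_apply (p : ℝ[X]) : K n p = X ^ 2 * derivative p - C (n : ℝ) * X * p := rfl

lemma coeff_X_mul_derivative (p : ℝ[X]) (k : ℕ) : (X * derivative p).coeff k = k * p.coeff k := by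
  rcases k with _ | k
  · simp
  · rw [coeff_X_mul, coeff_derivative]; push_cast; ring

lemma coeff_H (p : ℝ[X]) (k : ℕ) : (H n p).coeff k = ((k : ℝ) - n / 2) * p.coeff k := by
  rw [H_apply, coeff_sub, coeff_X_mul_derivative, coeff_C_mul]; ring

lemma coeff_K_succ (p : ℝ[X]) (k : ℕ) : (K n p).coeff (k + 1) = ((k : ℝ) - n) * p.coeff k := by
  have e : X ^ 2 * derivative p - C (n : ℝ) * X * p =
      X * (X * derivative p - C (n : ℝ) * p) := by ring
  rw [K_apply, e, coeff_X_mul, coeff_sub, coeff_X_mul_derivative, coeff_C_mul]; ring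

lemma coeff_K_zero (p : ℝ[X]) : (K n p).coeff 0 = 0 := by
  have e : X ^ 2 * derivative p - C (n : ℝ) * X * p =
      X * (X * derivative p - C (n : ℝ) * p) := by ring
  rw [K_apply, e]; simp

lemma Pres_H : Pres n (H n) := by
  intro p hp
  rw [natDegree_le_iff_coeff_eq_zero]
  intro k hk
  rw [coeff_H, coeff_eq_zero_of_natDegree_lt (lt_of_le_of_lt hp hk), mul_zero]

lemma Pres_D : Pres n (derivative : LM) := fun p hp =>
  (natDegree_derivative_le p).trans (by omega)

lemma Pres_K : Pres n (K n) := by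
  intro p hp
  rw [natDegree_le_iff_coeff_eq_zero]
  intro k hk
  obtain ⟨k, rfl⟩ : ∃ j, k = j + 1 := ⟨k - 1, by omega⟩
  rw [coeff_K_succ]
  rcases Nat.lt_or_ge n k with h | h
  · rw [coeff_eq_zero_of_natDegree_lt (lt_of_le_of_lt hp h), mul_zero]
  · have : n = k := by omega
    rw [this, sub_self, zero_mul]

/-- Rolle with a real exponent. -/
lemma NI_rolle {s : ℝ} (hs : 0 ≤ s) :
    NI n (s • LinearMap.id + (LinearMap.mulLeft ℝ X) ∘ₗ (derivative : LM)) := by
  refine NI_of_tendsto (fun j : ℕ => ((j + 1 : ℕ) : ℝ)⁻¹ •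
    (((⌊s * ((j + 1 : ℕ) : ℝ)⌋₊ : ℕ) : ℝ) • LinearMap.id +
      ((j + 1 : ℕ) : ℝ) • ((LinearMap.mulLeft ℝ X) ∘ₗ (derivative : LM)))) ?_ ?_ ?_
  · intro j
    apply NI_smul
    intro p _ hne
    simp only [LinearMap.add_apply, LinearMap.smul_apply, LinearMap.id_apply,
      LinearMap.comp_apply, LinearMap.mulLeft_apply, smul_eq_C_mul] at hne ⊢
    exact Zc_rolle_nat _ (j + 1) (by omega) hne
  · intro j
    refine Pres.smul (Pres.add (Pres.id.smul _) (Pres.smul ?_ _)) _
    intro p hp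
    rw [natDegree_le_iff_coeff_eq_zero]
    intro k hk
    rw [LinearMap.comp_apply, LinearMap.mulLeft_apply, coeff_X_mul_derivative,
      coeff_eq_zero_of_natDegree_lt (lt_of_le_of_lt hp hk), mul_zero]
  · intro p _ k
    have h1 : Tendsto (fun j : ℕ => ((⌊s * ((j + 1 : ℕ) : ℝ)⌋₊ : ℕ) : ℝ) / ((j + 1 : ℕ) : ℝ)) atTop
        (𝓝 s) :=
      (tendsto_nat_floor_mul_div_atTop hs).comp
        (tendsto_natCast_atTop_atTop.comp (tendsto_add_atTop_nat 1))
    have h2 := (h1.mul_const (p.coeff k)).add_const ((X * derivative p).coeff k)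
    simp only [LinearMap.add_apply, LinearMap.smul_apply, LinearMap.id_apply,
      LinearMap.comp_apply, LinearMap.mulLeft_apply, coeff_add, coeff_smul, smul_eq_mul]
    refine h2.congr fun j => ?_
    have : ((j + 1 : ℕ) : ℝ) ≠ 0 := by positivity
    field_simp

lemma rv_H_rv {p : ℝ[X]} (hp : p.natDegree ≤ n) : rv n (H n (rv n p)) = -H n p := by
  ext k
  rw [coeff_rv, coeff_H, coeff_rv, revAt_invol, coeff_neg, coeff_H]
  rcases Nat.lt_or_ge n k with h | h
  · rw [coeff_eq_zero_of_natDegree_lt (lt_of_le_of_lt hp h)]; simp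
  · rw [revAt_le h, Nat.cast_sub h]; ring

lemma rv_D_rv {p : ℝ[X]} (hp : p.natDegree ≤ n) : rv n (derivative (rv n p)) = -K n p := by
  ext k
  rw [coeff_rv, coeff_derivative, coeff_rv, coeff_neg]
  rcases k with _ | k
  · rw [coeff_K_zero, revAt_zero, revAt_eq_self_of_lt (Nat.lt_succ_self n),
      coeff_eq_zero_of_natDegree_lt (lt_of_le_of_lt hp (Nat.lt_succ_self n))]
    simp
  · rw [coeff_K_succ]
    rcases Nat.lt_or_ge n (k + 1) with h | h
    · rw [revAt_eq_self_of_lt h, revAt_eq_self_of_lt (by omega),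
        coeff_eq_zero_of_natDegree_lt (lt_of_le_of_lt hp (by omega : n < k + 1 + 1))]
      rcases Nat.lt_or_ge n k with h' | h'
      · rw [coeff_eq_zero_of_natDegree_lt (lt_of_le_of_lt hp h')]; simp
      · have : n = k := by omega
        rw [this]; simp
    · rw [revAt_le h]
      have e : n - (k + 1) + 1 = n - k := by omega
      rw [e, revAt_le (by omega), Nat.sub_sub_self (by omega)]
      rw [Nat.cast_sub h]
      push_cast
      ring

lemma good_H : Good n (H n) := by
  have hpos : (0 : ℝ) < 2 / (n + 1) := by positivity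
  have key : ∀ ε : ℝ, 0 < ε → ε ≤ 2 / (n + 1) → NI n (LinearMap.id + ε • H n) := by
    intro ε h0 h1
    have hs : 0 ≤ 1 / ε - n / 2 := by
      have h2 : ((n : ℝ) + 1) / 2 ≤ 1 / ε := by
        rw [le_div_iff₀ h0]
        rw [le_div_iff₀ (by positivity)] at h1
        linarith
      have h3 : (n : ℝ) / 2 ≤ (n + 1) / 2 := by linarith
      linarith
    refine NI_congr (NI_smul (NI_rolle (n := n) hs) ε) fun p _ => ?_
    simp only [LinearMap.smul_apply, LinearMap.add_apply, LinearMap.id_apply, H_apply,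
      LinearMap.comp_apply, LinearMap.mulLeft_apply, smul_eq_C_mul]
    have e : C ε * C (1 / ε - (n : ℝ) / 2) = 1 - C ε * C ((n : ℝ) / 2) := by
      rw [← C_mul, ← C_mul, mul_sub, mul_one_div_cancel h0.ne', C_sub, C_1]
    calc C ε * (C (1 / ε - (n : ℝ) / 2) * p + X * derivative p)
        = (C ε * C (1 / ε - (n : ℝ) / 2)) * p + C ε * (X * derivative p) := by ring
      _ = _ := by rw [e]; ring
  refine ⟨Pres_H, 2 / (n + 1), hpos, fun ε hε => ?_⟩
  rcases lt_trichotomy ε 0 with h | h | h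
  · have h1 := key (-ε) (by linarith) (by rw [abs_of_neg h] at hε; exact hε)
    have h2 : NI n (rv n ∘ₗ (LinearMap.id + (-ε) • H n) ∘ₗ rv n) :=
      (NI_of_le (fun _ hp => Zc_rv_le hp)).comp
        (h1.comp (NI_of_le (fun _ hp => Zc_rv_le hp)) Pres_rv)
        ((Pres.id.add (Pres_H.smul _)).comp Pres_rv)
    refine NI_congr h2 fun p hp => ?_
    simp only [LinearMap.comp_apply, LinearMap.add_apply, LinearMap.id_apply,
      LinearMap.smul_apply, map_add, map_smul, rv_rv, rv_H_rv hp]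
    simp
  · subst h
    intro p _ _
    simp
  · exact key ε h (by rw [abs_of_pos h] at hε; exact hε)

lemma derivative_taylor (a : ℝ) (q : ℝ[X]) : derivative (taylor a q) = taylor a (derivative q) := by
  rw [taylor_apply, taylor_apply, derivative_comp]
  simp

/-- `H + c D` is good. -/
lemma good_H_add (c : ℝ) : Good n (H n + c • (derivative : LM)) := by
  refine (good_H.conj_taylor c).congr fun p _ => ?_
  simp only [LinearMap.comp_apply, H_apply, LinearMap.add_apply, LinearMap.smul_apply, map_sub,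
    taylor_mul, taylor_X, taylor_C, smul_eq_C_mul]
  have h1 : taylor c (derivative (taylor (-c) p)) = derivative p := by
    rw [derivative_taylor, taylor_taylor]; simp
  have h3 : taylor c (taylor (-c) p) = p := by rw [taylor_taylor]; simp
  rw [h1, h3]
  ring

lemma Pres_XD : Pres n ((LinearMap.mulLeft ℝ X) ∘ₗ (derivative : LM)) := by
  intro p hp
  rw [natDegree_le_iff_coeff_eq_zero]
  intro k hk
  rw [LinearMap.comp_apply, LinearMap.mulLeft_apply, coeff_X_mul_derivative,
    coeff_eq_zero_of_natDegree_lt (lt_of_le_of_lt hp hk), mul_zero]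

lemma NI_aux {s : ℝ} (hs0 : 0 < s) (ε : ℝ) : NI n (LinearMap.id + ε • (derivative : LM) +
    s⁻¹ • ((LinearMap.mulLeft ℝ X) ∘ₗ (derivative : LM))) := by
  have h1 : NI n (s⁻¹ • (taylor (s * ε) ∘ₗ (s • LinearMap.id +
      (LinearMap.mulLeft ℝ X) ∘ₗ (derivative : LM)) ∘ₗ taylor (-(s * ε)))) := by
    apply NI_smul
    refine (NI_of_le (fun p _ => Zc_taylor_le _ p)).comp ((NI_rolle hs0.le).comp
      (NI_of_le (fun p _ => Zc_taylor_le _ p)) ?_) ?_
    · intro p hp; rwa [natDegree_taylor]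
    · exact Pres.comp (Pres.add (Pres.id.smul _) Pres_XD)
        (fun p hp => by rwa [natDegree_taylor])
  refine NI_congr h1 fun p _ => ?_
  have h3 : taylor (s * ε) (taylor (-(s * ε)) p) = p := by rw [taylor_taylor]; simp
  have h4 : taylor (s * ε) (derivative (taylor (-(s * ε)) p)) = derivative p := by
    rw [derivative_taylor, taylor_taylor]; simp
  simp only [LinearMap.smul_apply, LinearMap.comp_apply, LinearMap.add_apply,
    LinearMap.id_apply, LinearMap.mulLeft_apply, map_add, taylor_mul, taylor_X, taylor_C, h3, h4,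
    smul_eq_C_mul]
  have e : C s⁻¹ * C s = (1 : ℝ[X]) := by rw [← C_mul, inv_mul_cancel₀ hs0.ne', C_1]
  rw [C_mul]
  linear_combination (p + C ε * derivative p) * e

/-- `D` is good. -/
lemma good_D : Good n (derivative : LM) := by
  refine ⟨Pres_D, 1, one_pos, fun ε _ => ?_⟩
  -- `1 + ε D = lim (1/s) (s + (X + s ε) D)`
  refine NI_of_tendsto (fun j : ℕ => LinearMap.id + ε • (derivative : LM) +
    ((j + 1 : ℕ) : ℝ)⁻¹ • ((LinearMap.mulLeft ℝ X) ∘ₗ (derivative : LM))) ?_ ?_ ?_
  · intro j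
    exact NI_aux (by positivity) ε
  · intro j
    exact (Pres.id.add (Pres_D.smul _)).add (Pres.smul Pres_XD _)
  · intro p _ k
    have h1 : Tendsto (fun j : ℕ => (((j + 1 : ℕ) : ℝ))⁻¹) atTop (𝓝 0) :=
      tendsto_inv_atTop_nhds_zero_nat.comp (tendsto_add_atTop_nat 1)
    have h2 := (h1.mul_const ((X * derivative p).coeff k)).const_add
      ((p + ε • derivative p).coeff k)
    rw [zero_mul, add_zero] at h2
    simp only [LinearMap.add_apply, LinearMap.smul_apply, LinearMap.id_apply,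
      LinearMap.comp_apply, LinearMap.mulLeft_apply, coeff_add, coeff_smul, smul_eq_mul] at h2 ⊢
    exact h2

/-- `K + e H` is good. -/
lemma good_K_add (e : ℝ) : Good n (K n + e • H n) := by
  have h1 : Good n (-(derivative : LM) + (-e) • H n) := by
    rcases eq_or_ne e 0 with he | he
    · subst he
      refine (good_D.smul (-1)).congr fun p _ => ?_
      simp
    · refine ((good_H_add (n := n) (1 / e)).smul (-e)).congr fun p _ => ?_
      simp only [LinearMap.smul_apply, LinearMap.add_apply, LinearMap.neg_apply, smul_add,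
        smul_smul]
      have : -e * (1 / e) = -1 := by field_simp
      rw [this]
      simp
      abel
  refine h1.conj_rv.congr fun p hp => ?_
  simp only [LinearMap.comp_apply, LinearMap.add_apply, LinearMap.neg_apply, LinearMap.smul_apply,
    map_add, map_neg, map_smul, rv_D_rv hp, rv_H_rv hp]
  simp

/-- `ℓ D - (n/2) ℓ'`. -/
noncomputable def Xl (n : ℕ) (l : ℝ[X]) : LM :=
  (LinearMap.mulLeft ℝ l) ∘ₗ (derivative : LM) -
    LinearMap.mulLeft ℝ (C ((n : ℝ) / 2) * derivative l)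

lemma Xl_apply (l p : ℝ[X]) : Xl n l p = l * derivative p - C ((n : ℝ) / 2) * derivative l * p :=
  rfl

lemma good_Xl_one : Good n (Xl n 1) :=
  good_D.congr fun p _ => by rw [Xl_apply]; simp

lemma good_Xl_lin (a : ℝ) : Good n (Xl n (X - C a)) :=
  (good_H_add (-a)).congr fun p _ => by
    rw [Xl_apply]
    simp only [LinearMap.add_apply, LinearMap.smul_apply, H_apply, smul_eq_C_mul, derivative_sub,
      derivative_X, derivative_C, sub_zero, C_neg]
    ring

lemma good_Xl_quad (a b : ℝ) : Good n (Xl n ((X - C a) * (X - C b))) := by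
  refine ((good_K_add (n := n) (a - b)).conj_taylor (-a)).congr fun p _ => ?_
  have h3 : taylor (-a) (taylor (- -a) p) = p := by rw [taylor_taylor]; simp
  have h4 : taylor (-a) (derivative (taylor (- -a) p)) = derivative p := by
    rw [derivative_taylor, taylor_taylor]; simp
  simp only [LinearMap.comp_apply, LinearMap.add_apply, LinearMap.smul_apply, K_apply, H_apply,
    map_sub, map_add, taylor_mul, taylor_pow, taylor_X, taylor_C, h3, h4, smul_eq_C_mul]
  rw [Xl_apply, derivative_mul, derivative_X_sub_C, derivative_X_sub_C]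
  have e : C (n : ℝ) = C ((n : ℝ) / 2) * 2 := by
    rw [show (2 : ℝ[X]) = C 2 from (C_ofNat 2).symm, ← C_mul]
    congr 1; ring
  rw [e, C_neg]
  ring

/-- `1 - κ G²` does not increase the number of non-real zeros, for small `κ ≥ 0`. -/
lemma Good.sq {G : LM} (hG : Good n G) : ∃ κ₀ : ℝ, 0 < κ₀ ∧ ∀ κ : ℝ, 0 ≤ κ → κ ≤ κ₀ →
    NI n (LinearMap.id + (-κ) • (G ∘ₗ G)) := by
  obtain ⟨h1, ε₀, h2, h3⟩ := hG
  refine ⟨ε₀ ^ 2, by positivity, fun κ hκ hκ0 => ?_⟩
  set ε := Real.sqrt κ with hε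
  have hε2 : ε ^ 2 = κ := Real.sq_sqrt hκ
  have hε0 : 0 ≤ ε := Real.sqrt_nonneg _
  have hle : ε ≤ ε₀ := by
    rw [hε, Real.sqrt_le_left h2.le]
    exact hκ0
  have h4 := h3 ε (by rw [abs_of_nonneg hε0]; exact hle)
  have h5 := h3 (-ε) (by rw [abs_neg, abs_of_nonneg hε0]; exact hle)
  refine NI_congr (h4.comp h5 (Pres.id.add (h1.smul _))) fun p _ => ?_
  simp only [LinearMap.comp_apply, LinearMap.add_apply, LinearMap.id_apply, LinearMap.smul_apply,
    map_add, map_smul]
  rw [← hε2]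
  module

end Pool.Agent.NRZ
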