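import Pool.Agent.Lib.MP_0d7657_an.Defs
import Pool.Agent.Lib.MP_0d7657_an.Nec

set_option autoImplicit false

namespace Pool.Agent.NRZ

open Polynomial

variable {n : ℕ}

lemma pl_equiv (p : PiN n) : pl n (degreeLTEquiv ℝ (n + 1) p) = (p : ℝ[X]) := by
  have h1 : degreeLTEquiv ℝ (n + 1) p = cv n (p : ℝ[X]) := rfl
  rw [h1]
  apply pl_cv
  have h2 := mem_degreeLT.1 p.2
  rw [natDegree_le_iff_coeff_eq_zero]
  intro k hk
  apply coeff_eq_zero_of_degree_lt
  refine lt_of_lt_of_le h2 ?_
  exact_mod_cast hk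

lemma coe_symm (v : V n) : (((degreeLTEquiv ℝ (n + 1)).symm v : PiN n) : ℝ[X]) = pl n v := by
  rw [← pl_equiv, LinearEquiv.apply_symm_apply]

lemma pl_coord (A : PiN n →ₗ[ℝ] PiN n) (v : V n) :
    pl n (coord A v) = (A ((degreeLTEquiv ℝ (n + 1)).symm v) : ℝ[X]) := by
  have : coord A v = degreeLTEquiv ℝ (n + 1) (A ((degreeLTEquiv ℝ (n + 1)).symm v)) := rfl
  rw [this, pl_equiv]

lemma coe_expo (A : PiN n →ₗ[ℝ] PiN n) (t : ℝ) (p : PiN n) :
    (expo A t p : ℝ[X]) = pl n (NormedSpace.exp (t • coord A) (degreeLTEquiv ℝ (n + 1) p)) := by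
  have : expo A t p = (degreeLTEquiv ℝ (n + 1)).symm
    (NormedSpace.exp (t • coord A) (degreeLTEquiv ℝ (n + 1) p)) := rfl
  rw [this, coe_symm]

theorem semigroup_classification (A : PiN n →ₗ[ℝ] PiN n) :
    List.TFAE [∀ t : ℝ, 0 ≤ t → NonIncreasing (expo A t),
      ∀ t : ℝ, 0 ≤ t → PreservesRealRooted (expo A t), IsSecondOrder A] := by
  tfae_have 1 → 2 := by
    intro h t ht p hp hTp hz
    have := h t ht p hp hTp
    omega
  tfae_have 2 → 3 := by
    intro h
    obtain ⟨c, b, d, hc, hA⟩ := exists_FA (A := coord A) (fun t ht v hv => by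
      by_cases h0 : pl n (NormedSpace.exp (t • coord A) v) = 0
      · rw [h0]; exact Zc_zero
      · have h1 := h t ht ((degreeLTEquiv ℝ (n + 1)).symm v)
        rw [coe_expo, LinearEquiv.apply_symm_apply, coe_symm] at h1
        refine h1 ?_ ?_ hv
        · intro h2
          apply h0
          have h3 : v = 0 := by simpa using h2
          rw [h3, map_zero, map_zero]
        · intro h2
          apply h0
          have h3 := coe_expo A t ((degreeLTEquiv ℝ (n + 1)).symm v)
          rw [h2, LinearEquiv.apply_symm_apply] at h3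
          exact h3.symm)
    refine ⟨c, b, d, hc, fun p => ?_⟩
    have h1 := hA (degreeLTEquiv ℝ (n + 1) p)
    rw [pl_coord, LinearEquiv.symm_apply_apply, pl_equiv, FA_apply] at h1
    exact h1
  tfae_have 3 → 1 := by
    rintro ⟨c, b, d, hc, hA⟩ t ht p _ _
    rw [coe_expo]
    have h1 : NIV n (NormedSpace.exp (t • coord A)) := by
      refine NIV_exp (c := C t * c) (b := C t * b) (d := C t * d) (fun x => ?_) (fun v => ?_)
      · rw [eval_mul, eval_C]; exact mul_nonneg ht (hc x)
      · have h2 := hA ((degreeLTEquiv ℝ (n + 1)).symm v)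
        rw [coe_symm] at h2
        have h3 : pl n ((t • coord A) v) = C t * pl n (coord A v) := by
          rw [smul_apply, map_smul, smul_eq_C_mul]
        rw [h3, pl_coord, h2, FA_apply]
        ring
    have h2 := h1 (degreeLTEquiv ℝ (n + 1) p)
    rwa [pl_equiv] at h2
  tfae_finish

end Pool.Agent.NRZ
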