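import Pool.Agent.Lib.MP_0d7657_an.Fwd

set_option autoImplicit false

namespace Pool.Agent.NRZ

open Polynomial Filter Topology

/-- Coefficient vectors of polynomials of degree at most `n`. -/
abbrev V (n : ℕ) : Type := Fin (n + 1) → ℝ

/-- The polynomial with a given coefficient vector. -/
noncomputable abbrev pl (n : ℕ) : V n →ₗ[ℝ] ℝ[X] := ofFn (n + 1)

/-- The coefficient vector of a polynomial. -/
noncomputable abbrev cv (n : ℕ) : ℝ[X] →ₗ[ℝ] V n := toFn (n + 1)

variable {n : ℕ}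

lemma natDegree_pl (v : V n) : (pl n v).natDegree ≤ n :=
  Nat.lt_succ_iff.1 (ofFn_natDegree_lt (by omega) v)

lemma pl_cv {p : ℝ[X]} (hp : p.natDegree ≤ n) : pl n (cv n p) = p :=
  ofFn_comp_toFn_eq_id_of_natDegree_lt (Nat.lt_succ_of_le hp)

lemma cv_pl (v : V n) : cv n (pl n v) = v := toFn_comp_ofFn_eq_id (n + 1) v

/-- Operators on coefficient vectors which do not increase the number of non-real zeros. -/
def NIV (n : ℕ) (T : V n →L[ℝ] V n) : Prop := ∀ v, Zc (pl n (T v)) ≤ Zc (pl n v)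

/-- The operator on coefficient vectors. -/
noncomputable def res (n : ℕ) (F : LM) : V n →L[ℝ] V n :=
  LinearMap.toContinuousLinearMap ((cv n) ∘ₗ F ∘ₗ (pl n))

lemma res_apply (F : LM) (v : V n) : res n F v = cv n (F (pl n v)) := rfl

lemma pl_res {F : LM} (hF : Pres n F) (v : V n) : pl n (res n F v) = F (pl n v) := by
  rw [res_apply, pl_cv (hF _ (natDegree_pl v))]

lemma NIV_res {F : LM} (hF : Pres n F) (h : NI n F) : NIV n (res n F) := by
  intro v
  rw [pl_res hF]
  exact h.le (natDegree_pl v)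

lemma res_comp {F G : LM} (hG : Pres n G) : res n (F ∘ₗ G) = res n F * res n G := by
  ext1 v
  show res n (F ∘ₗ G) v = res n F (res n G v)
  rw [res_apply, res_apply, pl_res hG]
  rfl

lemma res_id : res n (LinearMap.id : LM) = 1 := by
  ext1 v
  rw [res_apply]
  exact cv_pl v

lemma res_add (F G : LM) : res n (F + G) = res n F + res n G := by
  ext1 v
  simp only [res_apply, LinearMap.add_apply, map_add, add_apply]

lemma res_smul (c : ℝ) (F : LM) : res n (c • F) = c • res n F := by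
  ext1 v
  simp only [res_apply, LinearMap.smul_apply, map_smul, smul_apply]

lemma NIV.mul {S T : V n →L[ℝ] V n} (hS : NIV n S) (hT : NIV n T) : NIV n (S * T) :=
  fun v => (hS (T v)).trans (hT v)

lemma NIV_one : NIV n (1 : V n →L[ℝ] V n) := fun _ => le_rfl

lemma NIV.pow {S : V n →L[ℝ] V n} (hS : NIV n S) (k : ℕ) : NIV n (S ^ k) := by
  induction k with
  | zero => rw [pow_zero]; exact NIV_one
  | succ k ih => rw [pow_succ]; exact ih.mul hS

lemma NIV_of_tendsto {T : V n →L[ℝ] V n} (S : ℕ → (V n →L[ℝ] V n))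
    (hS : ∀ᶠ j in atTop, NIV n (S j)) (h : Tendsto S atTop (𝓝 T)) : NIV n T := by
  intro v
  by_cases h0 : pl n (T v) = 0
  · rw [h0, Zc_zero]; exact Nat.zero_le _
  obtain ⟨N, hN⟩ := eventually_atTop.1 hS
  have h1 : Tendsto (fun j => S (j + N) v) atTop (𝓝 (T v)) := by
    have h2 : Tendsto (fun j => S j v) atTop (𝓝 (T v)) :=
      ((ContinuousLinearMap.apply ℝ (V n) v).continuous.tendsto T).comp h
    exact h2.comp (tendsto_add_atTop_nat N)
  refine Zc_closed n _ (fun j => pl n (S (j + N) v)) (fun j => natDegree_pl _)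
    (fun j => hN (j + N) (by omega) v) _ h0 fun k => ?_
  exact (continuous_coeff_ofFn k).continuousAt.tendsto.comp h1

/-- `1 + ε B` does not increase the number of non-real zeros for small `ε ≥ 0`. -/
def Elem (n : ℕ) (B : LM) : Prop :=
  Pres n B ∧ ∃ ε₀ : ℝ, 0 < ε₀ ∧ ∀ ε : ℝ, 0 ≤ ε → ε ≤ ε₀ → NI n (LinearMap.id + ε • B)

lemma Good.elem {G : LM} (hG : Good n G) (β : ℝ) : Elem n (β • G) := by
  obtain ⟨h1, ε₀, h2, h3⟩ := hG.smul β
  exact ⟨h1, ε₀, h2, fun ε h0 hε => h3 ε (by rw [abs_of_nonneg h0]; exact hε)⟩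

lemma Good.elem_sq {G : LM} (hG : Good n G) {κ : ℝ} (hκ : 0 ≤ κ) :
    Elem n ((-κ) • (G ∘ₗ G)) := by
  obtain ⟨κ₀, h1, h2⟩ := hG.sq
  refine ⟨(hG.1.comp hG.1).smul _, κ₀ / (κ + 1), by positivity, fun ε h0 hε => ?_⟩
  have h3 : ε * (κ + 1) ≤ κ₀ := by rwa [le_div_iff₀ (by positivity)] at hε
  have h4 := h2 (ε * κ) (by positivity) (by nlinarith)
  refine NI_congr h4 fun p _ => ?_
  simp only [LinearMap.add_apply, LinearMap.smul_apply, smul_smul]
  congr 2
  ring

lemma elem_id (κ : ℝ) : Elem n (κ • (LinearMap.id : LM)) := by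
  refine ⟨Pres.id.smul _, 1, one_pos, fun ε _ _ => ?_⟩
  have h1 : NI n (LinearMap.id : LM) := fun p _ _ => le_rfl
  refine NI_congr (NI_smul h1 (1 + ε * κ)) fun p _ => ?_
  simp only [LinearMap.add_apply, LinearMap.smul_apply, LinearMap.id_apply, smul_smul]
  rw [add_smul, one_smul]

/-- The exponential of a sum of elementary generators. -/
theorem NIV_exp_of_list (L : List LM) (hL : ∀ B ∈ L, Elem n B) :
    NIV n (NormedSpace.exp ((L.map (res n)).sum)) := by
  refine NIV_of_tendsto _ ?_ (tendsto_prod_pow_exp (L.map (res n)))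
  have h1 : ∀ᶠ m : ℕ in atTop, ∀ B ∈ L, NIV n (1 + (m : ℝ)⁻¹ • res n B) := by
    have h2 : ∀ B ∈ L, ∀ᶠ m : ℕ in atTop, NIV n (1 + (m : ℝ)⁻¹ • res n B) := by
      intro B hB
      obtain ⟨h3, ε₀, h4, h5⟩ := hL B hB
      have h6 : ∀ᶠ m : ℕ in atTop, ((m : ℝ))⁻¹ < ε₀ :=
        (tendsto_inv_atTop_nhds_zero_nat (𝕜 := ℝ)).eventually_lt_const h4
      filter_upwards [h6] with m hm
      have h7 := NIV_res (Pres.id.add (h3.smul _)) (h5 _ (by positivity) hm.le)
      rwa [res_add, res_id, res_smul] at h7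
    clear hL
    induction L with
    | nil => simp
    | cons B L ih =>
      have h3 := ih (fun B' hB' => h2 B' (List.mem_cons_of_mem _ hB'))
      filter_upwards [h2 B List.mem_cons_self, h3] with m h4 h5
      intro B' hB'
      rcases List.mem_cons.1 hB' with rfl | h
      · exact h4
      · exact h5 _ h
  filter_upwards [h1] with m hm
  apply NIV.pow
  clear h1 hL
  induction L with
  | nil => simpa using NIV_one
  | cons B L ih =>
    simp only [List.map_cons, List.prod_cons]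
    exact (hm B List.mem_cons_self).mul (ih fun B' hB' => hm B' (List.mem_cons_of_mem _ hB'))

/-- The exponential of a second order operator with nonnegative leading coefficient does not
increase the number of non-real zeros. -/
theorem NIV_exp {A : V n →L[ℝ] V n} {c b d : ℝ[X]} (hc : ∀ x, 0 ≤ c.eval x)
    (hA : ∀ v, pl n (A v) = FA c b d (pl n v)) : NIV n (NormedSpace.exp A) := by
  have hP : Pres n (FA c b d) := by
    intro p hp
    have h1 := hA (cv n p)
    rw [pl_cv hp] at h1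
    rw [← h1]
    exact natDegree_pl _
  rcases Nat.lt_or_ge n 2 with hn | hn
  · intro v
    rw [Zc_of_natDegree_le_one ((natDegree_pl _).trans (by omega))]
    exact Nat.zero_le _
  obtain ⟨κ₀, κ₁, κ₂, a, e, h0, h1, h2, hce⟩ := quartic_decomp (natDegree_c_le hn hP) hc
  -- the good operators
  set G₀ := Xl n (1 : ℝ[X]) with hG₀
  set G₁ := Xl n (X - C a) with hG₁
  set G₂ := Xl n ((X - C a) * (X - C e)) with hG₂
  have g0 : Good n G₀ := good_Xl_one
  have g1 : Good n G₁ := good_Xl_lin a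
  have g2 : Good n G₂ := good_Xl_quad a e
  -- the first order part
  set l₁ : ℝ[X] := X - C a with hl₁
  set l₂ : ℝ[X] := (X - C a) * (X - C e) with hl₂
  set B : ℝ[X] := b + (1 - C (n : ℝ)) * (C κ₁ * (l₁ * derivative l₁) +
    C κ₂ * (l₂ * derivative l₂)) with hB
  set Dd : ℝ[X] := d + (C κ₁ * (C ((n : ℝ) / 2) * C ((n : ℝ) / 2) * derivative l₁ ^ 2
        - C ((n : ℝ) / 2) * l₁ * derivative (derivative l₁)) +
      C κ₂ * (C ((n : ℝ) / 2) * C ((n : ℝ) / 2) * derivative l₂ ^ 2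
        - C ((n : ℝ) / 2) * l₂ * derivative (derivative l₂))) with hDd
  have hsplit : FA c b d = ((-κ₀) • (G₀ ∘ₗ G₀) + (-κ₁) • (G₁ ∘ₗ G₁) + (-κ₂) • (G₂ ∘ₗ G₂)) +
      FA 0 B Dd := by
    apply LinearMap.ext
    intro p
    simp only [LinearMap.add_apply, LinearMap.smul_apply, LinearMap.comp_apply, hG₀, hG₁, hG₂,
      Xl_sq, smul_eq_C_mul, FA_apply]
    rw [hce, hB, hDd]
    simp only [derivative_one, derivative_zero, C_neg]
    ring
  have hPsq : Pres n ((-κ₀) • (G₀ ∘ₗ G₀) + (-κ₁) • (G₁ ∘ₗ G₁) + (-κ₂) • (G₂ ∘ₗ G₂)) :=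
    (((g0.1.comp g0.1).smul _).add ((g1.1.comp g1.1).smul _)).add ((g2.1.comp g2.1).smul _)
  have hP1 : Pres n (FA 0 B Dd) := by
    intro p hp
    have e1 : FA 0 B Dd p = FA c b d p + ((-1 : ℝ) • ((-κ₀) • (G₀ ∘ₗ G₀) +
        (-κ₁) • (G₁ ∘ₗ G₁) + (-κ₂) • (G₂ ∘ₗ G₂))) p := by
      rw [hsplit]
      simp only [LinearMap.add_apply, LinearMap.smul_apply]
      module
    rw [e1]
    exact (hP.add (hPsq.smul (-1))) p hp
  obtain ⟨β₀, β₁, β₂, κ, hfo⟩ := first_order (by omega) hP1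
  have hres : A = (([(-κ₀) • (G₀ ∘ₗ G₀), (-κ₁) • (G₁ ∘ₗ G₁), (-κ₂) • (G₂ ∘ₗ G₂),
      β₀ • (derivative : LM), β₁ • H n, β₂ • K n, κ • (LinearMap.id : LM)] : List LM).map
        (res n)).sum := by
    have h3 : A = res n (FA c b d) := by
      ext1 v
      rw [res_apply, ← hA, cv_pl]
    rw [h3, hsplit, hfo]
    simp only [List.map_cons, List.map_nil, List.sum_cons, List.sum_nil, res_add]
    abel
  rw [hres]
  apply NIV_exp_of_list
  have gH : Good n (H n) := good_H
  have gK : Good n (K n) := (good_K_add (n := n) 0).congr fun p _ => by simp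
  intro B' hB'
  simp only [List.mem_cons, List.not_mem_nil, or_false] at hB'
  rcases hB' with rfl | rfl | rfl | rfl | rfl | rfl | rfl
  · exact g0.elem_sq h0
  · exact g1.elem_sq h1
  · exact g2.elem_sq h2
  · exact good_D.elem _
  · exact gH.elem _
  · exact gK.elem _
  · exact elem_id _

end Pool.Agent.NRZ
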