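import Mathlib

set_option autoImplicit false

namespace Pool.Agent.NRZ

open Polynomial

open Classical in
/-- The number of zeros of `p` in `ℂ \ ℝ`, counted with multiplicity. -/
noncomputable def Zc (p : ℝ[X]) : ℕ :=
  Multiset.card ((p.map (algebraMap ℝ ℂ)).roots.filter (fun z : ℂ => z.im ≠ 0))

lemma Zc_add_card_roots {p : ℝ[X]} (hp : p ≠ 0) :
    Zc p + Multiset.card p.roots = p.natDegree := by
  classical
  unfold Zc
  have hinj : Function.Injective (algebraMap ℝ ℂ) := (algebraMap ℝ ℂ).injective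
  have h1 : Multiset.card (p.map (algebraMap ℝ ℂ)).roots = p.natDegree := by
    rw [← natDegree_map (algebraMap ℝ ℂ)]
    exact (IsAlgClosed.splits _).natDegree_eq_card_roots.symm
  have h2 : (p.map (algebraMap ℝ ℂ)).roots.filter (fun z : ℂ => ¬ z.im ≠ 0) =
      p.roots.map (algebraMap ℝ ℂ) := by
    ext z
    by_cases hz : z.im = 0
    · obtain ⟨x, rfl⟩ : ∃ x : ℝ, algebraMap ℝ ℂ x = z := ⟨z.re, by
        apply Complex.ext <;> simp [hz]⟩
      rw [Multiset.count_filter_of_pos (by simpa using hz), Multiset.count_map_eq_count' _ _ hinj,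
        count_roots, count_roots, ← eq_rootMultiplicity_map hinj]
    · rw [Multiset.count_filter_of_neg (by simpa using hz)]
      symm
      rw [Multiset.count_eq_zero]
      intro hmem
      obtain ⟨x, _, rfl⟩ := Multiset.mem_map.1 hmem
      simp at hz
  have h3 := Multiset.filter_add_not (fun z : ℂ => z.im ≠ 0) (p.map (algebraMap ℝ ℂ)).roots
  have h4 := congrArg Multiset.card h3
  rw [Multiset.card_add, h2, Multiset.card_map, h1] at h4
  exact h4

lemma Zc_le_natDegree (p : ℝ[X]) : Zc p ≤ p.natDegree := by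
  by_cases hp : p = 0
  · subst hp; simp [Zc]
  · have := Zc_add_card_roots hp; omega

lemma Zc_mul {p q : ℝ[X]} (hp : p ≠ 0) (hq : q ≠ 0) : Zc (p * q) = Zc p + Zc q := by
  have h1 := Zc_add_card_roots hp
  have h2 := Zc_add_card_roots hq
  have h3 := Zc_add_card_roots (mul_ne_zero hp hq)
  rw [roots_mul (mul_ne_zero hp hq), Multiset.card_add, natDegree_mul hp hq] at h3
  omega

lemma Zc_of_natDegree_le_one {p : ℝ[X]} (h : p.natDegree ≤ 1) : Zc p = 0 := by
  by_cases hp : p = 0
  · subst hp; simp [Zc]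
  · have h1 := Zc_add_card_roots hp
    rcases Nat.eq_zero_or_pos p.natDegree with h0 | h0
    · omega
    · have h2 : p.natDegree = 1 := by omega
      have h3 : p.Splits := by
        apply Splits.of_natDegree_eq_one h2
      have h4 := h3.natDegree_eq_card_roots
      omega

@[simp] lemma Zc_C (a : ℝ) : Zc (C a) = 0 := Zc_of_natDegree_le_one (by simp)

lemma Zc_C_mul {a : ℝ} (ha : a ≠ 0) (p : ℝ[X]) : Zc (C a * p) = Zc p := by
  by_cases hp : p = 0
  · simp [hp]
  · rw [Zc_mul (by simpa using ha) hp]; simp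

lemma Zc_X_pow_mul (k : ℕ) (p : ℝ[X]) : Zc (X ^ k * p) = Zc p := by
  by_cases hp : p = 0
  · simp [hp]
  · induction k with
    | zero => simp
    | succ k ih =>
      rw [pow_succ', mul_assoc, Zc_mul X_ne_zero (mul_ne_zero (pow_ne_zero _ X_ne_zero) hp), ih,
        Zc_of_natDegree_le_one (p := X) (by simp)]
      simp

lemma Zc_irreducible {p : ℝ[X]} (hp : Irreducible p) (h2 : p.natDegree = 2) : Zc p = 2 := by
  have h1 := Zc_add_card_roots hp.ne_zero
  have h3 : p.roots = 0 := by
    by_contra hne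
    obtain ⟨x, hx⟩ := Multiset.exists_mem_of_ne_zero hne
    have hd := dvd_iff_isRoot.2 (isRoot_of_mem_roots hx)
    have h4 := natDegree_eq_of_degree_eq (degree_eq_degree_of_associated
      ((irreducible_X_sub_C x).associated_of_dvd hp hd))
    rw [natDegree_X_sub_C] at h4
    omega
  rw [h3] at h1
  simp at h1
  omega

/-- A multiplicative map which does not raise the degrees of polynomials of degree at most two
does not increase the number of non-real zeros. -/
lemma Zc_le_of_multiplicative (Φ : ℝ[X] → ℝ[X]) (hmul : ∀ p q, Φ (p * q) = Φ p * Φ q)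
    (hne : ∀ p, p ≠ 0 → Φ p ≠ 0) (h1 : ∀ p, p.natDegree ≤ 1 → (Φ p).natDegree ≤ 1)
    (h2 : ∀ p, p.natDegree ≤ 2 → (Φ p).natDegree ≤ 2) {p : ℝ[X]} (hp : p ≠ 0) :
    Zc (Φ p) ≤ Zc p := by
  revert hp
  refine WfDvdMonoid.induction_on_irreducible p ?_ ?_ ?_
  · intro h; exact absurd rfl h
  · intro u hu _
    have h3 : u.natDegree = 0 := natDegree_eq_zero_of_isUnit hu
    rw [Zc_of_natDegree_le_one (h1 u (by omega))]
    exact Nat.zero_le _
  · intro a i ha hi ih hia
    rw [hmul, Zc_mul (hne _ hi.ne_zero) (hne _ ha), Zc_mul hi.ne_zero ha]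
    have h4 := ih ha
    have h5 : Zc (Φ i) ≤ Zc i := by
      have hd := hi.natDegree_le_two
      have hpos : 0 < i.natDegree := hi.natDegree_pos
      rcases Nat.lt_or_ge i.natDegree 2 with h | h
      · rw [Zc_of_natDegree_le_one (h1 i (by omega))]; exact Nat.zero_le _
      · rw [Zc_irreducible hi (by omega)]
        exact (Zc_le_natDegree _).trans (h2 i (by omega))
    omega

end Pool.Agent.NRZ
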